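import Mathlib
import Pool.Agent.H851.IN.Ret

/-!
# The complement of the ideal of the elements which act trivially on `V`
-/

set_option autoImplicit false
set_option linter.unusedSectionVars false
set_option linter.unusedVariables false

namespace Pool.Agent.H851.KS

open Module TensorProduct Pool.Agent.Y114.RM Pool.Agent.R913.Adj
open Pool.Agent.H851.ZD Pool.Agent.H851.IN
open Pool.Agent.H204R3.GP (FiniteIndexSemisimple)

section nondeg

variable {k : Type} [Field k] [CharZero k] {V : Type} [AddCommGroup V] [Module k V]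
  [FiniteDimensional k V] {Γ : Type} [Group Γ] {ρ : Representation k Γ V}

/-- The trace form is nondegenerate on subalgebras defined by tensors. -/
theorem nonDeg_of_closed (hss : FiniteIndexSemisimple ρ) {L : Submodule k (End k V)}
    (hL : ∀ X ∈ L, X ∈ LT ρ)
    (hcl : ∀ X, (∀ (m : ℕ) (φ : Tensor k V m), (∀ Y ∈ L, KillsTensor Y φ) → KillsTensor X φ) →
      X ∈ L) (hLie : IsLie L)
    (hAd : ∀ γ, ∀ X ∈ L, AdE (ρ γ) (ρ γ⁻¹) X ∈ L) : NonDeg L := by
  -- the radical of the trace form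
  let R : Submodule k (End k V) :=
    { carrier := {X | X ∈ L ∧ ∀ Y ∈ L, LinearMap.trace k V (X * Y) = 0}
      zero_mem' := ⟨L.zero_mem, fun Y _ => by rw [zero_mul, map_zero]⟩
      add_mem' := fun {a b} ha hb => ⟨L.add_mem ha.1 hb.1, fun Y hY => by
        rw [add_mul, map_add, ha.2 Y hY, hb.2 Y hY, add_zero]⟩
      smul_mem' := fun c a ha => ⟨L.smul_mem c ha.1, fun Y hY => by
        rw [smul_mul_assoc, map_smul, ha.2 Y hY, smul_zero]⟩ }
  have hRm : ∀ X, X ∈ R ↔ X ∈ L ∧ ∀ Y ∈ L, LinearMap.trace k V (X * Y) = 0 := fun X => Iff.rfl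
  have hRlie : ∀ X ∈ R, ∀ Y ∈ R, X * Y - Y * X ∈ R := by
    intro X hX Y hY
    refine (hRm _).2 ⟨hLie X hX.1 Y hY.1, fun Z hZ => ?_⟩
    have h1 : LinearMap.trace k V ((X * Y - Y * X) * Z) =
        LinearMap.trace k V (X * (Y * Z - Z * Y)) := by
      rw [sub_mul, mul_sub, map_sub, map_sub, mul_assoc, mul_assoc Y, ← mul_assoc X Z Y,
        LinearMap.trace_mul_comm k Y]
    rw [h1]
    exact hX.2 _ (hLie Y hY.1 Z hZ)
  have hRnil : ∀ X ∈ R, IsNilpotent X := fun X hX => nilpotent_of_orth hcl hX.1 hX.2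
  have hRad : ∀ γ, ∀ X ∈ R, AdE (ρ γ) (ρ γ⁻¹) X ∈ R := by
    intro γ X hX
    refine (hRm _).2 ⟨hAd γ X hX.1, fun Y hY => ?_⟩
    have h1 := hX.2 _ (hAd γ⁻¹ Y hY)
    rw [AdE_apply, inv_inv] at h1
    rw [AdE_apply]
    have h2 : LinearMap.trace k V (ρ γ * (X * ρ γ⁻¹) * Y) =
        LinearMap.trace k V (X * (ρ γ⁻¹ * (Y * ρ γ))) := by
      rw [mul_assoc, LinearMap.trace_mul_comm]
      simp only [mul_assoc]
    rw [h2, h1]
  -- the common kernel
  let W : Submodule k V :=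
    { carrier := {v | ∀ X ∈ R, X v = 0}
      zero_mem' := fun X _ => map_zero X
      add_mem' := fun {a b} ha hb X hX => by rw [map_add, ha X hX, hb X hX, add_zero]
      smul_mem' := fun c a ha X hX => by rw [map_smul, ha X hX, smul_zero] }
  have hWst : ∀ s ∈ (⊤ : Subgroup Γ), ∀ u ∈ W, ρ s u ∈ W := by
    intro s _ u hu X hX
    have h1 := hu _ (hRad s⁻¹ X hX)
    rw [AdE_apply, inv_inv] at h1
    have h2 : X (ρ s u) = ρ s ((ρ s⁻¹ * (X * ρ s)) u) := by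
      rw [Module.End.mul_apply, Module.End.mul_apply, ← Module.End.mul_apply (ρ s), rmi,
        Module.End.one_apply]
    rw [h2, h1, map_zero]
  obtain ⟨U, hU, hc⟩ := hss ⊤ inferInstance W hWst
  have hUR : ∀ X ∈ R, ∀ u ∈ U, X u ∈ U := fun X hX u hu =>
    (hL X hX.1).1 U ⟨⊤, inferInstance, hU⟩ u hu
  have hUbot : U = ⊥ := by
    by_contra hne
    obtain ⟨u, hu, hu0, hk⟩ := exists_killed hRlie hRnil hUR hne
    exact hu0 ((Submodule.disjoint_def.1 hc.disjoint) u hk hu)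
  have hWtop : W = ⊤ := by
    have h1 := hc.sup_eq_top
    rwa [hUbot, sup_bot_eq] at h1
  intro X hX hXt
  refine LinearMap.ext fun v => ?_
  have hv : v ∈ W := by
    rw [hWtop]
    trivial
  exact hv X ⟨hX, hXt⟩

end nondeg

section compl

variable {k : Type} [Field k] [CharZero k] {V W : Type} [AddCommGroup V] [Module k V]
  [FiniteDimensional k V] [AddCommGroup W] [Module k W] [FiniteDimensional k W] {Γ : Type}
  [Group Γ] {r : Representation k Γ V} {σ : Representation k Γ W}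

/-- A complement `𝔰` of the ideal of the elements of `L` which act trivially on `V` -/
structure IsCpl (L 𝔰 : Submodule k (End k (V × W))) : Prop where
  le : 𝔰 ≤ L
  ideal : ∀ X ∈ L, ∀ Z ∈ 𝔰, X * Z - Z * X ∈ 𝔰
  split : ∀ X ∈ L, ∃ Y ∈ L, blk Y = 0 ∧ ∃ Z ∈ 𝔰, X = Y + Z
  comm : ∀ Y ∈ L, blk Y = 0 → ∀ Z ∈ 𝔰, Z * Y = Y * Z
  inj : ∀ Z ∈ 𝔰, blk Z = 0 → Z = 0

theorem exists_cpl (hss : FiniteIndexSemisimple (r.prod σ)) {L : Submodule k (End k (V × W))}
    (hLT : ∀ X, X ∈ L ↔ X ∈ LT (r.prod σ)) (hLie : IsLie L)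
    (hAd : ∀ γ, ∀ X ∈ L, AdE ((r.prod σ) γ) ((r.prod σ) γ⁻¹) X ∈ L) :
    ∃ 𝔰 : Submodule k (End k (V × W)), IsCpl L 𝔰 := by
  let K : Submodule k (End k (V × W)) := L ⊓ LinearMap.ker blk
  have hKm : ∀ Y, Y ∈ K ↔ Y ∈ L ∧ blk Y = 0 := fun Y => Iff.rfl
  have hid : ∀ X ∈ L, ∀ Y ∈ K, X * Y - Y * X ∈ K := by
    intro X hX Y hY
    refine (hKm _).2 ⟨hLie X hX Y hY.1, ?_⟩
    have h1 : blk Y = 0 := hY.2
    rw [map_sub, blk_mul ((hLT Y).1 hY.1), blk_mul ((hLT X).1 hX), h1, mul_zero, zero_mul, sub_zero]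
  have hcl : ∀ X, (∀ (m : ℕ) (φ : Tensor k (V × W) m), (∀ Y ∈ K, KillsTensor Y φ) →
      KillsTensor X φ) → X ∈ K := by
    intro X hX
    have hXL : X ∈ L := (hLT X).2 (mem_LT_of_semisimple (r.prod σ) hss fun m φ hφ =>
      hX m φ fun Y hY => ((hLT Y).1 hY.1).2 m φ hφ)
    refine (hKm _).2 ⟨hXL, LinearMap.ext fun x => ?_⟩
    rw [← sub_eq_zero, LinearMap.zero_apply, sub_zero, ← Module.forall_dual_apply_eq_zero_iff k]
    intro ξ
    let φ : Tensor k (V × W) 1 := MultilinearMap.ofSubsingleton k _ k (0 : Fin 1)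
      (ξ ∘ₗ LinearMap.fst k V W ∘ₗ LinearMap.fst k (V × W) (Dual k (V × W)))
    have hφ : ∀ v, φ v = ξ (v 0).1.1 := fun v => rfl
    have h1 := hX 1 φ (by
      intro Y hY v
      rw [Fin.sum_univ_one, hφ, Function.update_self]
      change ξ (Y (v 0).1).1 = 0
      rw [lt_diag ((hLT Y).1 hY.1), (hY.2 : blk Y = 0)]
      exact map_zero ξ)
    have h2 := h1 fun _ => ((x, 0), 0)
    rw [Fin.sum_univ_one, hφ, Function.update_self] at h2
    exact h2
  have hKLie : IsLie K := fun X hX Y hY => hid X hX.1 Y hY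
  have hKAd : ∀ γ, ∀ X ∈ K, AdE ((r.prod σ) γ) ((r.prod σ) γ⁻¹) X ∈ K := by
    intro γ X hX
    refine (hKm _).2 ⟨hAd γ X hX.1, ?_⟩
    rw [blk_conj, (hX.2 : blk X = 0), map_zero]
  have hnd : NonDeg K := nonDeg_of_closed hss (fun X hX => (hLT X).1 hX.1) hcl hKLie hKAd
  obtain ⟨P, hP⟩ := exists_proj hnd
  have hKL : K ≤ L := inf_le_left
  have hPz : ∀ Z, P Z = 0 ↔ ∀ Y ∈ K, LinearMap.trace k (V × W) (Z * Y) = 0 := by
    intro Z
    constructor
    · intro h Y hY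
      rw [← hP.tr Z Y hY, h, zero_mul, map_zero]
    · intro h
      refine hnd _ (hP.mem Z) fun Y hY => ?_
      rw [hP.tr Z Y hY, h Y hY]
  let 𝔰 : Submodule k (End k (V × W)) := L ⊓ LinearMap.ker P
  have hsm : ∀ Z, Z ∈ 𝔰 ↔ Z ∈ L ∧ P Z = 0 := fun Z => Iff.rfl
  refine ⟨𝔰, inf_le_left, ?_, ?_, ?_, ?_⟩
  · intro X hX Z hZ
    refine (hsm _).2 ⟨hLie X hX Z hZ.1, (hPz _).2 fun Y hY => ?_⟩
    have h1 : LinearMap.trace k (V × W) ((X * Z - Z * X) * Y) =
        -LinearMap.trace k (V × W) (Z * (X * Y - Y * X)) := by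
      rw [sub_mul, mul_sub, map_sub, map_sub, mul_assoc X, mul_assoc Z X, ← mul_assoc Z Y X,
        LinearMap.trace_mul_comm k X]
      ring
    rw [h1, (hPz Z).1 hZ.2 _ (hid X hX Y hY), neg_zero]
  · intro X hX
    refine ⟨P X, hKL (hP.mem X), (hP.mem X).2, X - P X, (hsm _).2
      ⟨L.sub_mem hX (hKL (hP.mem X)), ?_⟩, (add_sub_cancel (P X) X).symm⟩
    rw [map_sub, hP.fix _ (hP.mem X), sub_self]
  · intro Y hY hY0 Z hZ
    have hYK : Y ∈ K := (hKm Y).2 ⟨hY, hY0⟩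
    rw [← sub_eq_zero]
    have h1 : Z * Y - Y * Z ∈ K := hid Z hZ.1 Y hYK
    refine hnd _ h1 fun Y' hY' => ?_
    have h2 : LinearMap.trace k (V × W) ((Z * Y - Y * Z) * Y') =
        LinearMap.trace k (V × W) (Z * (Y * Y' - Y' * Y)) := by
      rw [sub_mul, mul_sub, map_sub, map_sub, mul_assoc, mul_assoc Y, ← mul_assoc Z Y' Y,
        LinearMap.trace_mul_comm k Y]
    rw [h2]
    exact (hPz Z).1 hZ.2 _ (hKLie Y hYK Y' hY')
  · intro Z hZ h0
    have h1 : Z ∈ K := (hKm Z).2 ⟨hZ.1, h0⟩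
    rw [← hP.fix Z h1]
    exact hZ.2

end compl

end Pool.Agent.H851.KS
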