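import Mathlib
import Pool.Agent.H851.KS.Cpl
import Pool.Agent.H851.KT.Base
import Pool.Graph.R_seed8.Y114.RM.Full

/-!
# The complement over an extension field
-/

set_option autoImplicit false
set_option linter.unusedSectionVars false
set_option linter.unusedVariables false

namespace Pool.Agent.H851.KS

open Module TensorProduct Pool.Agent.Y114.RM
open Pool.Agent.H851.ZD Pool.Agent.H851.IN Pool.Agent.H851.KT

theorem add_neg_one {R M : Type} [Ring R] [AddCommMonoid M] [Module R M] (x : M) :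
    x + (-1 : R) • x = 0 := by
  have h : (1 : R) • x + (-1 : R) • x = 0 := by rw [← add_smul, add_neg_cancel, zero_smul]
  rwa [one_smul] at h

variable {k : Type} [Field k] {C : Type} [Field C] [Algebra k C] {V W : Type} [AddCommGroup V]
  [Module k V] [AddCommGroup W] [Module k W]

variable (k C V W) in
/-- the inclusion of the first summand -/
noncomputable def inC : C ⊗[k] V →ₗ[C] C ⊗[k] (V × W) := (LinearMap.inl k V W).baseChange C

variable (k C V W) in
/-- the first projection -/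
noncomputable def fsC : C ⊗[k] (V × W) →ₗ[C] C ⊗[k] V := (LinearMap.fst k V W).baseChange C

variable (k C V W) in
/-- the inclusion of the second summand -/
noncomputable def irC : C ⊗[k] W →ₗ[C] C ⊗[k] (V × W) := (LinearMap.inr k V W).baseChange C

variable (k C V W) in
/-- the second projection -/
noncomputable def snC : C ⊗[k] (V × W) →ₗ[C] C ⊗[k] W := (LinearMap.snd k V W).baseChange C

theorem fs_in (x : C ⊗[k] V) : fsC k C V W (inC k C V W x) = x := by
  have h1 : fsC k C V W ∘ₗ inC k C V W = LinearMap.id := by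
    rw [fsC, inC, ← LinearMap.baseChange_comp, LinearMap.fst_comp_inl, LinearMap.baseChange_id]
  exact LinearMap.congr_fun h1 x

theorem sn_ir (x : C ⊗[k] W) : snC k C V W (irC k C V W x) = x := by
  have h1 : snC k C V W ∘ₗ irC k C V W = LinearMap.id := by
    rw [snC, irC, ← LinearMap.baseChange_comp, LinearMap.snd_comp_inr, LinearMap.baseChange_id]
  exact LinearMap.congr_fun h1 x

/-- the first block -/
noncomputable def bC : End C (C ⊗[k] (V × W)) →ₗ[C] End C (C ⊗[k] V) where
  toFun z := fsC k C V W ∘ₗ z ∘ₗ inC k C V W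
  map_add' a b := by rw [LinearMap.add_comp, LinearMap.comp_add]
  map_smul' c a := by rw [LinearMap.smul_comp, LinearMap.comp_smul]; rfl

theorem bC_apply (z : End C (C ⊗[k] (V × W))) (x : C ⊗[k] V) :
    bC z x = fsC k C V W (z (inC k C V W x)) := rfl

/-- the second block -/
noncomputable def bC2 : End C (C ⊗[k] (V × W)) →ₗ[C] End C (C ⊗[k] W) where
  toFun z := snC k C V W ∘ₗ z ∘ₗ irC k C V W
  map_add' a b := by rw [LinearMap.add_comp, LinearMap.comp_add]
  map_smul' c a := by rw [LinearMap.smul_comp, LinearMap.comp_smul]; rfl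

theorem bC2_apply (z : End C (C ⊗[k] (V × W))) (x : C ⊗[k] W) :
    bC2 z x = snC k C V W (z (irC k C V W x)) := rfl

theorem bC_bc (X : End k (V × W)) : bC (X.baseChange C) = (blk X).baseChange C := by
  change fsC k C V W ∘ₗ X.baseChange C ∘ₗ inC k C V W =
    (LinearMap.fst k V W ∘ₗ X ∘ₗ LinearMap.inl k V W).baseChange C
  rw [LinearMap.baseChange_comp, LinearMap.baseChange_comp]
  rfl

theorem bC2_bc (X : End k (V × W)) : bC2 (X.baseChange C) = (blk2 X).baseChange C := by
  change snC k C V W ∘ₗ X.baseChange C ∘ₗ irC k C V W =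
    (LinearMap.snd k V W ∘ₗ X ∘ₗ LinearMap.inr k V W).baseChange C
  rw [LinearMap.baseChange_comp, LinearMap.baseChange_comp]
  rfl

theorem pM_bC (π : C →ₗ[k] k) (z : End C (C ⊗[k] (V × W))) :
    (pM π (bC z) : End k V) = blk (pM π z) := by
  refine LinearMap.ext fun x => ?_
  rw [pM_apply, bC_apply, ZD.blk_apply, pM_apply, inC, LinearMap.baseChange_tmul, fsC, pv_bc']
  rfl

theorem pM_bC2 (π : C →ₗ[k] k) (z : End C (C ⊗[k] (V × W))) :
    (pM π (bC2 z) : End k W) = blk2 (pM π z) := by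
  refine LinearMap.ext fun x => ?_
  rw [pM_apply, bC2_apply, blk2_apply, pM_apply, irC, LinearMap.baseChange_tmul, snC, pv_bc']
  rfl

theorem eq_zero_of_pM' {U : Type} [AddCommGroup U] [Module k U] (z : End C (C ⊗[k] U))
    (h : ∀ π : C →ₗ[k] k, (pM π z : End k U) = 0) : z = 0 := by
  refine TensorProduct.AlgebraTensorModule.curry_injective (LinearMap.ext fun c =>
    LinearMap.ext fun u => ?_)
  change z (c ⊗ₜ u) = 0
  have h1 : (c ⊗ₜ[k] u : C ⊗[k] U) = c • ((1 : C) ⊗ₜ[k] u) := by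
    rw [TensorProduct.smul_tmul', smul_eq_mul, mul_one]
  have h2 : z ((1 : C) ⊗ₜ[k] u) = 0 := eq_zero_of_pv _ fun π => by
    have := LinearMap.congr_fun (h π) u
    rw [pM_apply] at this
    exact this
  rw [h1, map_smul, h2, smul_zero]

variable [CharZero k] [FiniteDimensional k V] [FiniteDimensional k W]
  {L 𝔰 : Submodule k (End k (V × W))}

theorem mem_bc {U : Type} [AddCommGroup U] [Module k U] [FiniteDimensional k U]
    {G : Submodule k (End k U)} {z : End C (C ⊗[k] U)} :
    z ∈ bcS C G ↔ ∀ π : C →ₗ[k] k, (pM π z : End k U) ∈ G :=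
  (Pool.Agent.Y809.RM.BC.bc k C U G).1 z

theorem cpl_inj (h : IsCpl L 𝔰) {z : End C (C ⊗[k] (V × W))} (hz : z ∈ bcS C 𝔰) (h0 : bC z = 0) :
    z = 0 := by
  refine eq_zero_of_pM' z fun π => h.inj _ (mem_bc.1 hz π) ?_
  rw [← pM_bC, h0]
  exact LinearMap.ext fun x => by rw [pM_apply, LinearMap.zero_apply, map_zero, LinearMap.zero_apply]

theorem cpl_inj' (h : IsCpl L 𝔰) {z z' : End C (C ⊗[k] (V × W))} (hz : z ∈ bcS C 𝔰)
    (hz' : z' ∈ bcS C 𝔰) (h0 : bC z = bC z') : z = z' := by
  have h1 : z + (-1 : C) • z' = 0 := cpl_inj h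
    (Submodule.add_mem _ hz (Submodule.smul_mem _ _ hz')) (by
      rw [map_add, map_smul, h0]
      exact add_neg_one _)
  have h2 : z = z + (-1 : C) • z' + z' := by
    rw [add_assoc, add_comm (_ • z'), add_neg_one, add_zero]
  rw [h2, h1, zero_add]

theorem cpl_onto (h : IsCpl L 𝔰) {x : End C (C ⊗[k] V)} (hx : x ∈ bcS C (L.map blk)) :
    ∃ z ∈ bcS C 𝔰, bC z = x := by
  induction hx using Submodule.span_induction with
  | mem x hx =>
    obtain ⟨_, ⟨X, hX, rfl⟩, rfl⟩ := hx
    obtain ⟨Y, hY, hY0, Z, hZ, rfl⟩ := h.split X hX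
    exact ⟨Z.baseChange C, mem_bcS hZ, by rw [bC_bc, map_add, hY0, zero_add]⟩
  | zero => exact ⟨0, Submodule.zero_mem _, map_zero _⟩
  | add x y _ _ hx hy =>
    obtain ⟨z, hz, rfl⟩ := hx
    obtain ⟨w, hw, rfl⟩ := hy
    exact ⟨z + w, Submodule.add_mem _ hz hw, map_add _ _ _⟩
  | smul c x _ hx =>
    obtain ⟨z, hz, rfl⟩ := hx
    exact ⟨c • z, Submodule.smul_mem _ c hz, map_smul _ _ _⟩

/-- two spaces which commute -/
theorem bcS_comm {U : Type} [AddCommGroup U] [Module k U] {G H : Submodule k (End k U)}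
    (h : ∀ X ∈ G, ∀ Y ∈ H, X * Y = Y * X) {x y : End C (C ⊗[k] U)} (hx : x ∈ bcS C G)
    (hy : y ∈ bcS C H) : x * y = y * x := by
  induction hx using Submodule.span_induction with
  | mem x hx =>
    obtain ⟨X, hX, rfl⟩ := hx
    induction hy using Submodule.span_induction with
    | mem y hy =>
      obtain ⟨Y, hY, rfl⟩ := hy
      rw [← bc_mul, h X hX Y hY, bc_mul]
    | zero => rw [mul_zero, zero_mul]
    | add y y' _ _ h1 h2 => rw [mul_add, add_mul, h1, h2]
    | smul c y _ h1 => rw [mul_smul_comm, smul_mul_assoc, h1]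
  | zero => rw [mul_zero, zero_mul]
  | add x x' _ _ h1 h2 => rw [mul_add, add_mul, h1, h2]
  | smul c x _ h1 => rw [mul_smul_comm, smul_mul_assoc, h1]

theorem cpl_split (h : IsCpl L 𝔰) {x : End C (C ⊗[k] (V × W))} (hx : x ∈ bcS C L) :
    ∃ y, ∃ z ∈ bcS C 𝔰, x = y + z ∧ bC y = 0 ∧ ∀ w ∈ bcS C 𝔰, w * y = y * w := by
  let K : Submodule k (End k (V × W)) := L ⊓ LinearMap.ker blk
  have key : ∃ y ∈ bcS C K, ∃ z ∈ bcS C 𝔰, x = y + z := by
    induction hx using Submodule.span_induction with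
    | mem x hx =>
      obtain ⟨X, hX, rfl⟩ := hx
      obtain ⟨Y, hY, hY0, Z, hZ, rfl⟩ := h.split X hX
      exact ⟨Y.baseChange C, mem_bcS ⟨hY, hY0⟩, Z.baseChange C, mem_bcS hZ,
        LinearMap.baseChange_add _ _⟩
    | zero => exact ⟨0, Submodule.zero_mem _, 0, Submodule.zero_mem _, (add_zero 0).symm⟩
    | add x y _ _ hx hy =>
      obtain ⟨a, ha, b, hb, rfl⟩ := hx
      obtain ⟨a', ha', b', hb', rfl⟩ := hy
      exact ⟨a + a', Submodule.add_mem _ ha ha', b + b', Submodule.add_mem _ hb hb', by abel⟩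
    | smul c x _ hx =>
      obtain ⟨a, ha, b, hb, rfl⟩ := hx
      exact ⟨c • a, Submodule.smul_mem _ c ha, c • b, Submodule.smul_mem _ c hb, smul_add _ _ _⟩
  obtain ⟨y, hy, z, hz, rfl⟩ := key
  refine ⟨y, z, hz, rfl, ?_, fun w hw => ?_⟩
  · refine eq_zero_of_pM' _ fun π => ?_
    rw [pM_bC]
    exact (mem_bc.1 hy π).2
  · exact bcS_comm (G := 𝔰) (H := K) (fun X hX Y hY => h.comm Y hY.1 hY.2 X hX) hw hy

theorem bcS_diag (hd : ∀ X ∈ L, ∀ x, X x = (blk X x.1, blk2 X x.2)) {z : End C (C ⊗[k] (V × W))}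
    (hz : z ∈ bcS C L) : (∀ x, z (inC k C V W x) = inC k C V W (bC z x)) ∧
      ∀ x, z (irC k C V W x) = irC k C V W (bC2 z x) := by
  induction hz using Submodule.span_induction with
  | mem z hz =>
    obtain ⟨X, hX, rfl⟩ := hz
    rw [bC_bc, bC2_bc]
    constructor
    · intro x
      have h1 : X.baseChange C ∘ₗ inC k C V W = inC k C V W ∘ₗ (blk X).baseChange C := by
        rw [inC, ← LinearMap.baseChange_comp, ← LinearMap.baseChange_comp]
        congr 1
        refine LinearMap.ext fun x => ?_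
        rw [LinearMap.comp_apply, LinearMap.comp_apply, LinearMap.inl_apply, LinearMap.inl_apply,
          hd X hX, map_zero]
      exact LinearMap.congr_fun h1 x
    · intro x
      have h1 : X.baseChange C ∘ₗ irC k C V W = irC k C V W ∘ₗ (blk2 X).baseChange C := by
        rw [irC, ← LinearMap.baseChange_comp, ← LinearMap.baseChange_comp]
        congr 1
        refine LinearMap.ext fun x => ?_
        rw [LinearMap.comp_apply, LinearMap.comp_apply, LinearMap.inr_apply, LinearMap.inr_apply,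
          hd X hX, map_zero]
      exact LinearMap.congr_fun h1 x
  | zero => simp
  | add x y _ _ hx hy =>
    refine ⟨fun v => ?_, fun v => ?_⟩
    · rw [LinearMap.add_apply, hx.1, hy.1, map_add, LinearMap.add_apply, map_add]
    · rw [LinearMap.add_apply, hx.2, hy.2, map_add, LinearMap.add_apply, map_add]
  | smul c x _ hx =>
    refine ⟨fun v => ?_, fun v => ?_⟩
    · rw [LinearMap.smul_apply, hx.1, map_smul, LinearMap.smul_apply, map_smul]
    · rw [LinearMap.smul_apply, hx.2, map_smul, LinearMap.smul_apply, map_smul]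

theorem bC_mul (hd : ∀ X ∈ L, ∀ x, X x = (blk X x.1, blk2 X x.2)) {z w : End C (C ⊗[k] (V × W))}
    (hw : w ∈ bcS C L) : bC (z * w) = bC z * bC w := by
  refine LinearMap.ext fun x => ?_
  have h1 := (bcS_diag hd hw).1 x
  change fsC k C V W (z (w (inC k C V W x))) = bC z (bC w x)
  rw [h1]
  rfl

theorem bC2_mul (hd : ∀ X ∈ L, ∀ x, X x = (blk X x.1, blk2 X x.2)) {z w : End C (C ⊗[k] (V × W))}
    (hw : w ∈ bcS C L) : bC2 (z * w) = bC2 z * bC2 w := by
  refine LinearMap.ext fun x => ?_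
  have h1 := (bcS_diag hd hw).2 x
  change snC k C V W (z (w (irC k C V W x))) = bC2 z (bC2 w x)
  rw [h1]
  rfl

theorem bcS_bracket {U : Type} [AddCommGroup U] [Module k U] {G H : Submodule k (End k U)}
    (h : ∀ X ∈ G, ∀ Y ∈ H, X * Y - Y * X ∈ H) {x y : End C (C ⊗[k] U)} (hx : x ∈ bcS C G)
    (hy : y ∈ bcS C H) : ∃ w ∈ bcS C H, x * y = y * x + w := by
  induction hx using Submodule.span_induction with
  | mem x hx =>
    obtain ⟨X, hX, rfl⟩ := hx
    induction hy using Submodule.span_induction with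
    | mem y hy =>
      obtain ⟨Y, hY, rfl⟩ := hy
      refine ⟨_, mem_bcS (h X hX Y hY), ?_⟩
      rw [← bc_mul, ← bc_mul, ← LinearMap.baseChange_add, add_sub_cancel]
    | zero => exact ⟨0, Submodule.zero_mem _, by rw [mul_zero, zero_mul, add_zero]⟩
    | add y y' _ _ h1 h2 =>
      obtain ⟨w, hw, e1⟩ := h1
      obtain ⟨w', hw', e2⟩ := h2
      exact ⟨w + w', Submodule.add_mem _ hw hw', by rw [mul_add, add_mul, e1, e2]; abel⟩
    | smul c y _ h1 =>
      obtain ⟨w, hw, e1⟩ := h1
      exact ⟨c • w, Submodule.smul_mem _ c hw, by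
        rw [mul_smul_comm, smul_mul_assoc, e1, smul_add]⟩
  | zero => exact ⟨0, Submodule.zero_mem _, by rw [mul_zero, zero_mul, add_zero]⟩
  | add x x' _ _ h1 h2 =>
    obtain ⟨w, hw, e1⟩ := h1
    obtain ⟨w', hw', e2⟩ := h2
    exact ⟨w + w', Submodule.add_mem _ hw hw', by rw [mul_add, add_mul, e1, e2]; abel⟩
  | smul c x _ h1 =>
    obtain ⟨w, hw, e1⟩ := h1
    exact ⟨c • w, Submodule.smul_mem _ c hw, by
      rw [mul_smul_comm, smul_mul_assoc, e1, smul_add]⟩

end Pool.Agent.H851.KS
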