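import Mathlib

/-!
# Anticommuting operators, and the dimension of a module with two weights
-/

set_option autoImplicit false

namespace Pool.Agent.H851.KS

open Module

variable {C : Type} [Field C] [IsAlgClosed C] [CharZero C]

/-- `m` anticommuting operators with nonzero scalar squares on `D`: the dimension is divisible by
`2 ^ (m / 2)` -/
theorem cliff_dvd : ∀ (m : ℕ) {D : Type} [AddCommGroup D] [Module C D] [FiniteDimensional C D]
    (g : Fin m → End C D) (c : Fin m → C), (∀ i, c i ≠ 0) → (∀ i, g i * g i = c i • 1) →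
    (∀ i j, i ≠ j → g i * g j = -(g j * g i)) → 2 ^ (m / 2) ∣ finrank C D
  | 0, D, _, _, _, _, _, _, _, _ => by simp
  | 1, D, _, _, _, _, _, _, _, _ => by simp
  | m + 2, D, _, _, _, g, c, hc, h2, ha => by
    obtain ⟨s, hs⟩ := IsAlgClosed.exists_pow_nat_eq (-(c 0 * c 1)) (n := 2) (by norm_num)
    have hs0 : s ≠ 0 := by
      rintro rfl
      rw [zero_pow two_ne_zero] at hs
      have h3 : c 0 * c 1 = 0 := by linear_combination hs
      exact (mul_ne_zero (hc 0) (hc 1)) h3
    have h01 : (0 : Fin (m + 2)) ≠ 1 := by simp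
    set J : End C D := g 0 * g 1 with hJ
    have hJJ : J * J = (s * s) • 1 := by
      have h3 : J * J = -(g 0 * g 0 * (g 1 * g 1)) := by
        rw [hJ, mul_assoc, ← mul_assoc (g 1), ha 1 0 h01.symm, neg_mul, mul_neg, mul_assoc (g 0),
          ← mul_assoc (g 0) (g 0)]
      rw [h3, h2, h2, smul_mul_smul_comm, one_mul, ← neg_smul, ← hs, sq]
    have hJ0 : J * g 0 = -(g 0 * J) := by
      rw [hJ, mul_assoc, ha 1 0 h01.symm, mul_neg]
    -- the eigenspaces
    let P : Submodule C D := LinearMap.ker (J - s • (1 : End C D))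
    let Q : Submodule C D := LinearMap.ker (J + s • (1 : End C D))
    have hP : ∀ x, x ∈ P ↔ J x = s • x := by
      intro x
      rw [LinearMap.mem_ker, LinearMap.sub_apply, LinearMap.smul_apply, Module.End.one_apply,
        sub_eq_zero]
    have hQ : ∀ x, x ∈ Q ↔ J x = -(s • x) := by
      intro x
      rw [LinearMap.mem_ker, LinearMap.add_apply, LinearMap.smul_apply, Module.End.one_apply,
        add_eq_zero_iff_eq_neg]
    have hJJx : ∀ x, J (J x) = (s * s) • x := fun x => by
      have := LinearMap.congr_fun hJJ x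
      exact this
    have hcompl : IsCompl P Q := by
      refine ⟨?_, ?_⟩
      · rw [Submodule.disjoint_def]
        intro x h3 h4
        rw [hP] at h3
        rw [hQ, h3] at h4
        have h5 : (2 * s) • x = 0 := by
          rw [two_mul, add_smul]
          nth_rewrite 1 [h4]
          exact neg_add_cancel _
        exact (smul_eq_zero.1 h5).resolve_left (mul_ne_zero two_ne_zero hs0)
      · rw [codisjoint_iff, eq_top_iff]
        intro x _
        have h3 : x = (2 * s)⁻¹ • (J x + s • x) + (-(2 * s)⁻¹) • (J x - s • x) := by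
          have h4 : (2 * s)⁻¹ * s + (2 * s)⁻¹ * s = 1 := by field_simp; norm_num
          rw [smul_add, smul_sub, smul_smul, smul_smul, neg_smul, neg_mul, neg_smul]
          have h5 : x = ((2 * s)⁻¹ * s + (2 * s)⁻¹ * s) • x := by rw [h4, one_smul]
          conv_lhs => rw [h5, add_smul]
          abel
        rw [h3]
        refine Submodule.add_mem_sup (P.smul_mem _ ?_) (Q.smul_mem _ ?_)
        · rw [hP, map_add, map_smul, hJJx, smul_add, smul_smul]
          abel
        · rw [hQ, map_sub, map_smul, hJJx, smul_sub, smul_smul]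
          abel
    have hJ0x : ∀ x, J (g 0 x) = -(g 0 (J x)) := fun x => LinearMap.congr_fun hJ0 x
    have hgx : ∀ i x, g i (g i x) = c i • x := fun i x => LinearMap.congr_fun (h2 i) x
    -- `g 0` exchanges the eigenspaces
    have h0P : ∀ x ∈ P, g 0 x ∈ Q := by
      intro x hx
      rw [hP] at hx
      rw [hQ, hJ0x, hx, map_smul]
    have h0Q : ∀ x ∈ Q, g 0 x ∈ P := by
      intro x hx
      rw [hQ] at hx
      rw [hP, hJ0x, hx, map_neg, map_smul, neg_neg]
    have hle : ∀ (P Q : Submodule C D), (∀ x ∈ P, g 0 x ∈ Q) → finrank C P ≤ finrank C Q := by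
      intro P Q h
      refine LinearMap.finrank_le_finrank_of_injective
        (f := ((g 0).domRestrict P).codRestrict Q fun x => h x x.2) ?_
      intro x y hxy
      have h3 := congrArg (fun z : Q => g 0 (z : D)) hxy
      change g 0 (g 0 x) = g 0 (g 0 y) at h3
      rw [hgx, hgx] at h3
      exact Subtype.ext (smul_right_injective D (hc 0) h3)
    have hPQ : finrank C P = finrank C Q := le_antisymm (hle P Q h0P) (hle Q P h0Q)
    have hsum := Submodule.finrank_add_eq_of_isCompl hcompl
    -- the other operators preserve `P`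
    have hJi : ∀ i : Fin m, J * g i.succ.succ = g i.succ.succ * J := by
      intro i
      have e1 : (i.succ.succ : Fin (m + 2)) ≠ 0 := Fin.succ_ne_zero _
      have e2 : (i.succ.succ : Fin (m + 2)) ≠ 1 := by
        intro h
        have h3 := congrArg Fin.val h
        simp at h3
      rw [hJ, mul_assoc, ha 1 _ e2.symm, mul_neg, ← mul_assoc, ha 0 _ e1.symm, neg_mul, neg_neg,
        mul_assoc]
    have hiP : ∀ (i : Fin m), ∀ x ∈ P, g i.succ.succ x ∈ P := by
      intro i x hx
      rw [hP] at hx ⊢
      have h3 : J (g i.succ.succ x) = g i.succ.succ (J x) := LinearMap.congr_fun (hJi i) x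
      rw [hx, map_smul] at h3
      exact h3
    have hind := cliff_dvd m (D := P) (fun i => (g i.succ.succ).restrict (hiP i))
      (fun i => c i.succ.succ) (fun i => hc _)
      (fun i => LinearMap.ext fun x => Subtype.ext (hgx i.succ.succ x)) (fun i j hij => by
        refine LinearMap.ext fun x => Subtype.ext ?_
        have h3 := LinearMap.congr_fun (ha i.succ.succ j.succ.succ fun h => hij
          (Fin.succ_injective _ (Fin.succ_injective _ h))) (x : D)
        exact h3)
    have h3 : (m + 2) / 2 = m / 2 + 1 := by omega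
    rw [h3, pow_succ, ← hsum, ← hPQ, ← mul_two]
    exact Nat.mul_dvd_mul hind dvd_rfl

theorem weight_aux {M : Type} [AddCommGroup M] [Module C M] {n e f : End C M} {b : C} (hb : b ≠ 0)
    (hee : e * e = 0) (hne : n * e - e * n = e) (hef : e * f - f * e = -(b • n)) :
    n * e = (2 : C)⁻¹ • e ∧ e * n = -((2 : C)⁻¹ • e) := by
  have h3 : e * n = n * e - e := by
    rw [sub_eq_iff_eq_add] at hne
    exact eq_sub_of_add_eq' hne.symm
  have h1 : e * f * e = -(b • (n * e)) := by
    have h2 : e * f * e = (e * f - f * e) * e := by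
      rw [sub_mul, mul_assoc f, hee, mul_zero, sub_zero]
    rw [h2, hef, neg_mul, smul_mul_assoc]
  have h2 : e * f * e = b • (e * n) := by
    have h3 : e * f * e = -(e * (e * f - f * e)) := by
      rw [mul_sub, ← mul_assoc, hee, zero_mul, zero_sub, neg_neg, mul_assoc]
    rw [h3, hef, mul_neg, neg_neg, mul_smul_comm]
  rw [h1, h3] at h2
  have h4 : b • (n * e + n * e - e) = 0 := by
    rw [smul_sub] at h2
    have h5 : b • (n * e) - b • e = -(b • (n * e)) := h2.symm
    rw [add_sub_assoc, smul_add, smul_sub, h5, add_neg_cancel]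
  have h5 := (smul_eq_zero.1 h4).resolve_left hb
  have h6 : (2 : C) • (n * e) = e := by
    rw [two_smul]
    exact sub_eq_zero.1 h5
  have h7 : n * e = (2 : C)⁻¹ • e := by
    conv_rhs => rw [← h6]
    rw [smul_smul, inv_mul_cancel₀ two_ne_zero, one_smul]
  refine ⟨h7, ?_⟩
  rw [h3, h7]
  have h8 : e = (2 : C)⁻¹ • e + (2 : C)⁻¹ • e := by
    rw [← add_smul, ← two_mul, mul_inv_cancel₀ two_ne_zero, one_smul]
  nth_rewrite 2 [h8]
  abel

/-- **Modules with two weights.** -/
theorem two_weights {m : ℕ} {M : Type} [AddCommGroup M] [Module C M] [FiniteDimensional C M]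
    (n : End C M) (e f : Fin m → End C M) (b : Fin m → C) (hb : ∀ i, b i ≠ 0)
    (hee : ∀ i j, e i * e j = 0) (hff : ∀ i j, f i * f j = 0)
    (hne : ∀ i, n * e i - e i * n = e i) (hnf : ∀ i, n * f i - f i * n = -f i)
    (hef : ∀ i, e i * f i - f i * e i = -(b i • n))
    (hij : ∀ i j, i ≠ j → (e i * f j - f j * e i) + (e j * f i - f i * e j) = 0)
    (hdim : finrank C M < 2 ^ ((m + 1) / 2)) : ∀ i, e i = 0 := by
  have we : ∀ i, n * e i = (2 : C)⁻¹ • e i := fun i =>
    (weight_aux (hb i) (hee i i) (hne i) (hef i)).1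
  have wf : ∀ i, n * f i = -((2 : C)⁻¹ • f i) := fun i => by
    have h1 := (weight_aux (n := -n) (e := f i) (f := e i) (hb i) (hff i i)
      (by
        rw [neg_mul, mul_neg, sub_neg_eq_add]
        have h2 := hnf i
        rw [sub_eq_iff_eq_add] at h2
        rw [h2]
        abel)
      (by
        rw [smul_neg, neg_neg, ← neg_sub, hef, neg_neg])).1
    rw [neg_mul] at h1
    rw [← h1, neg_neg]
  let P : Submodule C M := ⨆ i, LinearMap.range (e i)
  let Q : Submodule C M := ⨆ i, LinearMap.range (f i)
  -- linear conditions on the two parts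
  have onP : ∀ (T : Submodule C M), (∀ i x, e i x ∈ T) → ∀ x ∈ P, x ∈ T := by
    intro T hT x hx
    refine (iSup_le fun i => ?_ : P ≤ T) hx
    rintro _ ⟨y, rfl⟩
    exact hT i y
  have onQ : ∀ (T : Submodule C M), (∀ i x, f i x ∈ T) → ∀ x ∈ Q, x ∈ T := by
    intro T hT x hx
    refine (iSup_le fun i => ?_ : Q ≤ T) hx
    rintro _ ⟨y, rfl⟩
    exact hT i y
  have eP : ∀ i x, e i x ∈ P := fun i x => (le_iSup (fun i => LinearMap.range (e i)) i) ⟨x, rfl⟩
  have fQ : ∀ i x, f i x ∈ Q := fun i x => (le_iSup (fun i => LinearMap.range (f i)) i) ⟨x, rfl⟩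
  have nP : ∀ x ∈ P, n x = (2 : C)⁻¹ • x := by
    intro x hx
    have h1 := onP (LinearMap.ker (n - (2 : C)⁻¹ • (1 : End C M))) (fun i y => by
      rw [LinearMap.mem_ker, LinearMap.sub_apply, sub_eq_zero]
      exact LinearMap.congr_fun (we i) y) x hx
    rw [LinearMap.mem_ker, LinearMap.sub_apply, sub_eq_zero] at h1
    exact h1
  have nQ : ∀ x ∈ Q, n x = -((2 : C)⁻¹ • x) := by
    intro x hx
    have h1 := onQ (LinearMap.ker (n + (2 : C)⁻¹ • (1 : End C M))) (fun i y => by
      rw [LinearMap.mem_ker, LinearMap.add_apply, add_eq_zero_iff_eq_neg]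
      exact LinearMap.congr_fun (wf i) y) x hx
    rw [LinearMap.mem_ker, LinearMap.add_apply, add_eq_zero_iff_eq_neg] at h1
    exact h1
  have e0 : ∀ i, ∀ x ∈ P, e i x = 0 := fun i x hx =>
    LinearMap.mem_ker.1 (onP (LinearMap.ker (e i)) (fun j y => LinearMap.mem_ker.2
      (LinearMap.congr_fun (hee i j) y)) x hx)
  have f0 : ∀ i, ∀ x ∈ Q, f i x = 0 := fun i x hx =>
    LinearMap.mem_ker.1 (onQ (LinearMap.ker (f i)) (fun j y => LinearMap.mem_ker.2
      (LinearMap.congr_fun (hff i j) y)) x hx)
  -- the operators on the sum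
  let D : Submodule C M := P ⊔ Q
  let γ : Fin m → End C M := fun i => e i + f i
  have gP : ∀ i, ∀ x ∈ P, γ i x = f i x := fun i x hx => by
    change e i x + f i x = f i x
    rw [e0 i x hx, zero_add]
  have gQ : ∀ i, ∀ x ∈ Q, γ i x = e i x := fun i x hx => by
    change e i x + f i x = e i x
    rw [f0 i x hx, add_zero]
  have onD : ∀ (T : Submodule C M), P ≤ T → Q ≤ T → ∀ x ∈ D, x ∈ T := fun T h1 h2 x hx =>
    (sup_le h1 h2 : D ≤ T) hx
  have gD : ∀ i, ∀ x ∈ D, γ i x ∈ D := fun i x _ => D.add_mem
    ((le_sup_left : P ≤ D) (eP i x)) ((le_sup_right : Q ≤ D) (fQ i x))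
  have nD : ∀ x ∈ D, ((2 : C) • n) x ∈ D := by
    refine fun x hx => onD (D.comap ((2 : C) • n)) (fun y hy => ?_) (fun y hy => ?_) x hx
    · rw [Submodule.mem_comap, LinearMap.smul_apply, nP y hy]
      exact D.smul_mem _ (D.smul_mem _ ((le_sup_left : P ≤ D) hy))
    · rw [Submodule.mem_comap, LinearMap.smul_apply, nQ y hy]
      exact D.smul_mem _ (D.neg_mem (D.smul_mem _ ((le_sup_right : Q ≤ D) hy)))
  have hbr : ∀ i x, e i (f i x) - f i (e i x) = -(b i • n x) := fun i x =>
    LinearMap.congr_fun (hef i) x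
  have hbr2 : ∀ i j, i ≠ j → ∀ x, (e i (f j x) - f j (e i x)) + (e j (f i x) - f i (e j x)) = 0 :=
    fun i j h x => LinearMap.congr_fun (hij i j h) x
  have sq : ∀ i, ∀ x ∈ D, γ i (γ i x) = (-(b i * (2 : C)⁻¹)) • x := by
    intro i x hx
    have h1 := onD (LinearMap.ker (γ i * γ i - (-(b i * (2 : C)⁻¹)) • (1 : End C M)))
      (fun y hy => ?_) (fun y hy => ?_) x hx
    · rw [LinearMap.mem_ker, LinearMap.sub_apply, sub_eq_zero] at h1
      exact h1
    · rw [LinearMap.mem_ker, LinearMap.sub_apply, sub_eq_zero, Module.End.mul_apply, gP i y hy,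
        gQ i _ (fQ i y)]
      have h2 := hbr i y
      rw [e0 i y hy, map_zero, sub_zero, nP y hy] at h2
      rw [h2, LinearMap.smul_apply, Module.End.one_apply, smul_smul, neg_smul]
    · rw [LinearMap.mem_ker, LinearMap.sub_apply, sub_eq_zero, Module.End.mul_apply, gQ i y hy,
        gP i _ (eP i y)]
      have h2 := hbr i y
      rw [f0 i y hy, map_zero, zero_sub, nQ y hy, smul_neg, neg_neg] at h2
      rw [LinearMap.smul_apply, Module.End.one_apply, neg_smul, ← smul_smul, ← h2, neg_neg]
  have anti : ∀ i j, i ≠ j → ∀ x ∈ D, γ i (γ j x) = -(γ j (γ i x)) := by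
    intro i j h x hx
    have h1 := onD (LinearMap.ker (γ i * γ j + γ j * γ i)) (fun y hy => ?_) (fun y hy => ?_) x hx
    · rw [LinearMap.mem_ker, LinearMap.add_apply, add_eq_zero_iff_eq_neg] at h1
      exact h1
    · rw [LinearMap.mem_ker, LinearMap.add_apply, Module.End.mul_apply, Module.End.mul_apply,
        gP j y hy, gP i y hy, gQ i _ (fQ j y), gQ j _ (fQ i y)]
      have h2 := hbr2 i j h y
      rw [e0 i y hy, e0 j y hy, map_zero, map_zero, sub_zero, sub_zero] at h2
      exact h2
    · rw [LinearMap.mem_ker, LinearMap.add_apply, Module.End.mul_apply, Module.End.mul_apply,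
        gQ j y hy, gQ i y hy, gP i _ (eP j y), gP j _ (eP i y)]
      have h2 := hbr2 i j h y
      rw [f0 i y hy, f0 j y hy, map_zero, map_zero, zero_sub, zero_sub] at h2
      rw [← neg_eq_zero, neg_add, add_comm]
      exact h2
  have n2 : ∀ x ∈ D, ((2 : C) • n) (((2 : C) • n) x) = x := by
    intro x hx
    have h1 := onD (LinearMap.ker ((((2 : C) • n) * ((2 : C) • n)) - (1 : End C M)))
      (fun y hy => ?_) (fun y hy => ?_) x hx
    · rw [LinearMap.mem_ker, LinearMap.sub_apply, sub_eq_zero] at h1
      exact h1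
    · rw [LinearMap.mem_ker, LinearMap.sub_apply, sub_eq_zero, Module.End.mul_apply,
        LinearMap.smul_apply, LinearMap.smul_apply, nP y hy, smul_smul, mul_inv_cancel₀ two_ne_zero,
        one_smul, nP y hy, smul_smul, mul_inv_cancel₀ two_ne_zero, one_smul, Module.End.one_apply]
    · rw [LinearMap.mem_ker, LinearMap.sub_apply, sub_eq_zero, Module.End.mul_apply,
        LinearMap.smul_apply, LinearMap.smul_apply, nQ y hy, smul_neg, smul_smul,
        mul_inv_cancel₀ two_ne_zero, one_smul, map_neg, nQ y hy, neg_neg, smul_smul,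
        mul_inv_cancel₀ two_ne_zero, one_smul, Module.End.one_apply]
  have antin : ∀ i, ∀ x ∈ D, ((2 : C) • n) (γ i x) = -(γ i (((2 : C) • n) x)) := by
    intro i x hx
    have h1 := onD (LinearMap.ker (((2 : C) • n) * γ i + γ i * ((2 : C) • n)))
      (fun y hy => ?_) (fun y hy => ?_) x hx
    · rw [LinearMap.mem_ker, LinearMap.add_apply, add_eq_zero_iff_eq_neg] at h1
      exact h1
    · rw [LinearMap.mem_ker, LinearMap.add_apply, Module.End.mul_apply, Module.End.mul_apply,
        gP i y hy, LinearMap.smul_apply, LinearMap.smul_apply, nQ _ (fQ i y), nP y hy, smul_neg,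
        smul_smul, smul_smul, mul_inv_cancel₀ two_ne_zero, one_smul, one_smul, gP i y hy,
        neg_add_cancel]
    · rw [LinearMap.mem_ker, LinearMap.add_apply, Module.End.mul_apply, Module.End.mul_apply,
        gQ i y hy, LinearMap.smul_apply, LinearMap.smul_apply, nP _ (eP i y), nQ y hy, smul_neg,
        smul_smul, smul_smul, mul_inv_cancel₀ two_ne_zero, one_smul, one_smul, map_neg, gQ i y hy,
        add_neg_cancel]
  have hdvd := cliff_dvd (m + 1) (D := D)
    (Fin.cons (((2 : C) • n).restrict nD) fun i => (γ i).restrict (gD i))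
    (Fin.cons 1 fun i => -(b i * (2 : C)⁻¹)) (by
      intro i
      refine Fin.cases ?_ (fun j => ?_) i
      · exact one_ne_zero
      · exact neg_ne_zero.2 (mul_ne_zero (hb j) (inv_ne_zero two_ne_zero)))
    (by
      intro i
      refine Fin.cases ?_ (fun j => ?_) i
      · refine LinearMap.ext fun x => Subtype.ext ?_
        rw [Fin.cons_zero, Fin.cons_zero, one_smul]
        exact n2 x x.2
      · refine LinearMap.ext fun x => Subtype.ext ?_
        rw [Fin.cons_succ, Fin.cons_succ]
        exact sq j x x.2)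
    (by
      intro i j
      refine Fin.cases ?_ (fun i => ?_) i <;> refine Fin.cases ?_ (fun j => ?_) j
      · exact fun h => absurd rfl h
      · intro _
        refine LinearMap.ext fun x => Subtype.ext ?_
        rw [Fin.cons_zero, Fin.cons_succ]
        exact antin j x x.2
      · intro _
        refine LinearMap.ext fun x => Subtype.ext ?_
        rw [Fin.cons_zero, Fin.cons_succ]
        have h3 := antin i x x.2
        rw [eq_neg_iff_add_eq_zero, add_comm, ← eq_neg_iff_add_eq_zero] at h3
        exact h3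
      · intro h
        refine LinearMap.ext fun x => Subtype.ext ?_
        rw [Fin.cons_succ, Fin.cons_succ]
        exact anti i j (fun h' => h (by rw [h'])) x x.2)
  have hle := Submodule.finrank_le D
  have hD0 : finrank C D = 0 := Nat.eq_zero_of_dvd_of_lt hdvd (lt_of_le_of_lt hle hdim)
  have hDbot : D = ⊥ := Submodule.finrank_eq_zero.1 hD0
  intro i
  refine LinearMap.ext fun x => ?_
  have h1 : e i x ∈ D := (le_sup_left : P ≤ D) (eP i x)
  rw [hDbot, Submodule.mem_bot] at h1
  rw [h1, LinearMap.zero_apply]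

end Pool.Agent.H851.KS
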