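import Mathlib
import Pool.Agent.H851.KS.Bc
import Pool.Agent.H851.KS.Cliff

/-!
# Pieces with weights in an interval of length one
-/

set_option autoImplicit false
set_option linter.unusedSectionVars false
set_option linter.unusedVariables false

namespace Pool.Agent.H851.KS

open Module TensorProduct Pool.Agent.Y114.RM
open Pool.Agent.H851.ZD Pool.Agent.H851.IN Pool.Agent.H851.KT

section gen

variable {C : Type} [Field C] {A : Type} [AddCommGroup A] [Module C A]
  {B : A →ₗ[C] A →ₗ[C] C}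

theorem skew_wdg (hs : ∀ x y, B x y = B y x) (a b : A) : Skew B (wdg B a b) := by
  intro x y
  rw [wdg_apply, wdg_apply, map_sub, LinearMap.sub_apply, map_smul, map_smul, LinearMap.smul_apply,
    LinearMap.smul_apply, map_sub, map_smul, map_smul, smul_eq_mul, smul_eq_mul, smul_eq_mul,
    smul_eq_mul, hs x b, hs x a]
  ring

theorem br_add (hs : ∀ x y, B x y = B y x) {X : End C A} (hX : Skew B X) (a b : A) :
    X * wdg B a b = wdg B a b * X + (wdg B (X a) b + wdg B a (X b)) := by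
  rw [← hX.bracket_wdg a b, add_sub_cancel]

variable {v v' : A} (h0 : B v v = 0) (h0' : B v' v' = 0) (h1 : B v v' = 1)
  (hs : ∀ x y, B x y = B y x)

theorem end_cancel {a b c : End C A} (h : a + b = a + c) : b = c := add_left_cancel h

theorem wdg_add_swap (a b : A) : wdg B a b + wdg B b a = 0 := by
  rw [wdg_swap B b a, add_neg_cancel]

theorem wdg_smul_left (a b : A) (c : C) : wdg B (c • a) b = c • wdg B a b := by
  rw [wdg_swap, wdg_smul, wdg_swap B b a, smul_neg, neg_neg]

theorem wdg_zero_right (a : A) : wdg B a 0 = 0 := by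
  have h := wdg_smul B a 0 (0 : C)
  rwa [zero_smul, zero_smul] at h

theorem wdg_zero_left (a : A) : wdg B 0 a = 0 := by
  rw [wdg_swap, wdg_zero_right, neg_zero]

include h0 h1 hs in
theorem br_ne {u : A} (hu : B v u = 0) (hu' : B v' u = 0) :
    wdg B v' v * wdg B v u = wdg B v u * wdg B v' v + wdg B v u := by
  have e1 : wdg B v' v v = v := by
    rw [wdg_apply, hs v' v, h1, h0, one_smul, zero_smul, sub_zero]
  have e2 : wdg B v' v u = 0 := by
    rw [wdg_apply, hu', hu, zero_smul, zero_smul, sub_zero]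
  rw [br_add hs (skew_wdg hs v' v), e1, e2, wdg_zero_right, add_zero]

include h0' h1 hs in
theorem br_nf {u : A} (hu : B v u = 0) (hu' : B v' u = 0) :
    wdg B v' v * wdg B v' u = wdg B v' u * wdg B v' v + (-1 : C) • wdg B v' u := by
  have e1 : wdg B v' v v' = (-1 : C) • v' := by
    rw [wdg_apply, h0', h1, one_smul, zero_smul, zero_sub, neg_smul, one_smul]
  have e2 : wdg B v' v u = 0 := by
    rw [wdg_apply, hu', hu, zero_smul, zero_smul, sub_zero]
  rw [br_add hs (skew_wdg hs v' v), e1, e2, wdg_zero_right, add_zero, wdg_smul_left]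

include h0 h0' h1 hs in
theorem br_ef {u w : A} (hu : B v u = 0) (hu' : B v' u = 0) (hw : B v w = 0) (hw' : B v' w = 0) :
    wdg B v u * wdg B v' w = wdg B v' w * wdg B v u + (wdg B u w + (-(B u w)) • wdg B v' v) := by
  have e1 : wdg B v u v' = u := by
    rw [wdg_apply, h1, hs u v', hu', one_smul, zero_smul, sub_zero]
  have e2 : wdg B v u w = (-(B u w)) • v := by
    rw [wdg_apply, hw, zero_smul, zero_sub, neg_smul]
  rw [br_add hs (skew_wdg hs v u), e1, e2, wdg_smul]

/-- eigenvalues of an operator which is a scalar on the generalized eigenspaces of another one -/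
theorem eig_of [IsAlgClosed C] [FiniteDimensional C A] {T N : End C A} {t : C → C}
    (hN : ∀ β, ∀ x ∈ T.maxGenEigenspace β, N x = t β • x) {y : A} {μ : C} (hy : N y = μ • y)
    (hy0 : y ≠ 0) : ∃ α, T.maxGenEigenspace α ≠ ⊥ ∧ t α = μ := by
  by_contra hcon
  push Not at hcon
  have hsurj : LinearMap.range (N - μ • (1 : End C A)) = ⊤ := by
    rw [eq_top_iff, ← Module.End.iSup_maxGenEigenspace_eq_top T]
    refine iSup_le fun α x hx => ?_
    by_cases hα : T.maxGenEigenspace α = ⊥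
    · rw [hα] at hx
      rw [(Submodule.mem_bot C).1 hx]
      exact Submodule.zero_mem _
    · refine ⟨(t α - μ)⁻¹ • x, ?_⟩
      rw [map_smul, LinearMap.sub_apply, LinearMap.smul_apply, Module.End.one_apply, hN α x hx,
        ← sub_smul, smul_smul, inv_mul_cancel₀ (sub_ne_zero.2 (hcon α hα)), one_smul]
  have hinj : LinearMap.ker (N - μ • (1 : End C A)) = ⊥ :=
    LinearMap.ker_eq_bot_iff_range_eq_top.2 hsurj
  apply hy0
  have h2 : y ∈ LinearMap.ker (N - μ • (1 : End C A)) := by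
    rw [LinearMap.mem_ker, LinearMap.sub_apply, LinearMap.smul_apply, Module.End.one_apply, hy,
      sub_self]
  rw [hinj] at h2
  exact (Submodule.mem_bot C).1 h2

/-- operators which change the weight by two vanish -/
theorem zero_of_two [IsAlgClosed C] [FiniteDimensional C A] {T N : End C A} {t : C → C}
    (hN : ∀ β, ∀ x ∈ T.maxGenEigenspace β, N x = t β • x)
    (ht : ∀ α β, T.maxGenEigenspace α ≠ ⊥ → T.maxGenEigenspace β ≠ ⊥ → t α ≠ t β + 2 ∧
      t α ≠ t β + -2) {X : End C A} {s : C} (hs : s = 2 ∨ s = -2) (hX : N * X = X * N + s • X) :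
    X = 0 := by
  have h1 : (⊤ : Submodule C A) ≤ LinearMap.ker X := by
    rw [← Module.End.iSup_maxGenEigenspace_eq_top T]
    refine iSup_le fun β x hx => ?_
    rw [LinearMap.mem_ker]
    by_contra hne
    have hβ : T.maxGenEigenspace β ≠ ⊥ := by
      intro h
      rw [h] at hx
      exact hne (by rw [(Submodule.mem_bot C).1 hx, map_zero])
    have h2 : N (X x) = (t β + s) • X x := by
      have h3 : N (X x) = X (N x) + s • X x := LinearMap.congr_fun hX x
      rw [h3, hN β x hx, map_smul, add_smul]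
    obtain ⟨α, hα, h4⟩ := eig_of hN h2 hne
    rcases hs with rfl | rfl
    · exact (ht α β hα hβ).1 h4
    · exact (ht α β hα hβ).2 h4
  exact LinearMap.ext fun x => h1 trivial

/-- the form of `two_weights` which is used -/
theorem two_weights' [IsAlgClosed C] [CharZero C] [FiniteDimensional C A] {m : ℕ}
    {T N n : End C A} {t : C → C} (e f : Fin m → End C A) (b : Fin m → C) (hb : ∀ i, b i ≠ 0)
    (hN : ∀ β, ∀ x ∈ T.maxGenEigenspace β, N x = t β • x)
    (ht : ∀ α β, T.maxGenEigenspace α ≠ ⊥ → T.maxGenEigenspace β ≠ ⊥ → t α ≠ t β + 2 ∧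
      t α ≠ t β + -2)
    (hNe : ∀ i, N * e i = e i * N + e i) (hNf : ∀ i, N * f i = f i * N + (-1 : C) • f i)
    (hne : ∀ i, n * e i = e i * n + e i) (hnf : ∀ i, n * f i = f i * n + (-1 : C) • f i)
    (hef : ∀ i, e i * f i = f i * e i + (-(b i)) • n)
    (hij : ∀ i j, i ≠ j → e i * f j + e j * f i = f j * e i + f i * e j)
    (hdim : finrank C A < 2 ^ ((m + 1) / 2)) : ∀ i, e i = 0 := by
  refine two_weights n e f b hb (fun i j => ?_) (fun i j => ?_) (fun i => ?_) (fun i => ?_)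
    (fun i => ?_) (fun i j h => ?_) hdim
  · refine zero_of_two hN ht (Or.inl rfl) ?_
    rw [← mul_assoc, hNe i, add_mul, mul_assoc, hNe j, mul_add, mul_assoc, two_smul]
    abel
  · refine zero_of_two hN ht (Or.inr rfl) ?_
    rw [← mul_assoc, hNf i, add_mul, mul_assoc, hNf j, mul_add, mul_assoc, smul_mul_assoc,
      mul_smul_comm, add_assoc, ← add_smul]
    norm_num
  · rw [hne, add_sub_cancel_left]
  · rw [hnf, add_sub_cancel_left, neg_smul, one_smul]
  · rw [hef, add_sub_cancel_left, neg_smul]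
  · have h1 := hij i j h
    have h2 : e i * f j - f j * e i + (e j * f i - f i * e j) =
        e i * f j + e j * f i - (f j * e i + f i * e j) := by abel
    rw [h2, h1, sub_self]

end gen

section piece

variable {k : Type} [Field k] [CharZero k] {C : Type} [Field C] [CharZero C] [IsAlgClosed C]
  [Algebra k C] {V W : Type} [AddCommGroup V] [Module k V] [AddCommGroup W] [Module k W]
  [FiniteDimensional k V] [FiniteDimensional k W] {L 𝔰 : Submodule k (End k (V × W))}

/-- the restriction to a subspace of `W` -/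
noncomputable def rs {W₁ : Type} [AddCommGroup W₁] [Module k W₁] (ι : W₁ →ₗ[k] W) (p : W →ₗ[k] W₁) :
    End C (C ⊗[k] (V × W)) →ₗ[C] End C (C ⊗[k] W₁) where
  toFun z := p.baseChange C ∘ₗ bC2 z ∘ₗ ι.baseChange C
  map_add' a b := by rw [map_add, LinearMap.add_comp, LinearMap.comp_add]
  map_smul' c a := by rw [map_smul, LinearMap.smul_comp, LinearMap.comp_smul]; rfl

theorem rs_bc {W₁ : Type} [AddCommGroup W₁] [Module k W₁] (ι : W₁ →ₗ[k] W) (p : W →ₗ[k] W₁)
    (X : End k (V × W)) : rs (C := C) ι p (X.baseChange C) = (p ∘ₗ blk2 X ∘ₗ ι).baseChange C := by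
  change p.baseChange C ∘ₗ bC2 (X.baseChange C) ∘ₗ ι.baseChange C = _
  rw [bC2_bc, LinearMap.baseChange_comp, LinearMap.baseChange_comp]

theorem rs_ι {W₁ : Type} [AddCommGroup W₁] [Module k W₁] {ι : W₁ →ₗ[k] W} {p : W →ₗ[k] W₁}
    (hpL : ∀ X ∈ L, ∀ x, ι (p (blk2 X (ι x))) = blk2 X (ι x)) {z : End C (C ⊗[k] (V × W))}
    (hz : z ∈ bcS C L) (x : C ⊗[k] W₁) :
    bC2 z (ι.baseChange C x) = ι.baseChange C (rs ι p z x) := by
  revert x
  induction hz using Submodule.span_induction with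
  | mem z hz =>
    obtain ⟨X, hX, rfl⟩ := hz
    intro x
    rw [bC2_bc, rs_bc]
    have h1 : (blk2 X).baseChange C ∘ₗ ι.baseChange C =
        ι.baseChange C ∘ₗ (p ∘ₗ blk2 X ∘ₗ ι).baseChange C := by
      rw [← LinearMap.baseChange_comp, ← LinearMap.baseChange_comp]
      congr 1
      exact LinearMap.ext fun x => (hpL X hX x).symm
    exact LinearMap.congr_fun h1 x
  | zero => intro x; simp
  | add x y _ _ hx hy =>
    intro v
    rw [map_add, LinearMap.add_apply, hx, hy, map_add, LinearMap.add_apply, map_add]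
  | smul c x _ hx =>
    intro v
    rw [map_smul, LinearMap.smul_apply, hx, map_smul, LinearMap.smul_apply, map_smul]

theorem rs_mul {W₁ : Type} [AddCommGroup W₁] [Module k W₁] {ι : W₁ →ₗ[k] W} {p : W →ₗ[k] W₁}
    (hd : ∀ X ∈ L, ∀ x, X x = (blk X x.1, blk2 X x.2))
    (hpL : ∀ X ∈ L, ∀ x, ι (p (blk2 X (ι x))) = blk2 X (ι x)) {z w : End C (C ⊗[k] (V × W))}
    (hw : w ∈ bcS C L) : rs ι p (z * w) = rs ι p z * rs ι p w := by
  refine LinearMap.ext fun x => ?_
  change p.baseChange C (bC2 (z * w) (ι.baseChange C x)) =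
    p.baseChange C (bC2 z (ι.baseChange C (rs ι p w x)))
  rw [← rs_ι hpL hw, bC2_mul hd hw]
  rfl

/-- **Pieces.** -/
theorem piece (h : IsCpl L 𝔰) (hd : ∀ X ∈ L, ∀ x, X x = (blk X x.1, blk2 X x.2))
    (hsimple : ∀ I ≤ L.map blk, (∀ A ∈ L.map blk, ∀ Z ∈ I, A * Z - Z * A ∈ I) →
      I = ⊥ ∨ I = L.map blk) (hLie : ∀ X ∈ L, ∀ Y ∈ L, X * Y - Y * X ∈ L)
    {B : C ⊗[k] V →ₗ[C] C ⊗[k] V →ₗ[C] C} (hs : ∀ x y, B x y = B y x)
    {v v' : C ⊗[k] V} (h0 : B v v = 0) (h0' : B v' v' = 0) (h1 : B v v' = 1)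
    {m : ℕ} (hm : 0 < m) (u : Fin m → C ⊗[k] V) (hu : ∀ i, B v (u i) = 0)
    (hu' : ∀ i, B v' (u i) = 0) (huu : ∀ i j, i ≠ j → B (u i) (u j) = 0)
    (hui : ∀ i, B (u i) (u i) ≠ 0)
    (hwe : ∀ i, wdg B v (u i) ∈ bcS C (L.map blk)) (hwf : ∀ i, wdg B v' (u i) ∈ bcS C (L.map blk))
    {N : End C (C ⊗[k] (V × W))} (hN : N ∈ bcS C L) (hNb : bC N = wdg B v' v)
    {W₁ : Type} [AddCommGroup W₁] [Module k W₁] [FiniteDimensional k W₁] {ι : W₁ →ₗ[k] W}
    {p : W →ₗ[k] W₁} (hpi : ∀ x, p (ι x) = x)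
    (hpL : ∀ X ∈ L, ∀ x, ι (p (blk2 X (ι x))) = blk2 X (ι x))
    {T : End C (C ⊗[k] W₁)} {t : C → C}
    (hT : ∀ β, ∀ x ∈ T.maxGenEigenspace β, rs ι p N x = t β • x)
    (ht : ∀ α β, T.maxGenEigenspace α ≠ ⊥ → T.maxGenEigenspace β ≠ ⊥ → t α ≠ t β + 2 ∧
      t α ≠ t β + -2)
    (hdim : finrank k W₁ < 2 ^ ((m + 1) / 2)) :
    ∀ X ∈ L.map blk, ∃ Z ∈ L, blk Z = X ∧ ∀ x, blk2 Z (ι x) = 0 := by
  classical
  have hle : bcS C 𝔰 ≤ bcS C L := bcS_mono h.le
  have hlie𝔰 : ∀ {x y : End C (C ⊗[k] (V × W))}, x ∈ bcS C L → y ∈ bcS C 𝔰 →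
      ∃ w ∈ bcS C 𝔰, x * y = y * x + w := fun hx hy => bcS_bracket h.ideal hx hy
  -- the lifts
  obtain ⟨κ, n, hn, hNn, hκ0, hκ⟩ := cpl_split h hN
  have hnb : bC n = wdg B v' v := by
    rw [hNn, map_add, hκ0, zero_add] at hNb
    exact hNb
  choose e he hebl using fun i => cpl_onto h (hwe i)
  choose f hf hfbl using fun i => cpl_onto h (hwf i)
  have hmulb : ∀ {x y : End C (C ⊗[k] (V × W))}, y ∈ bcS C 𝔰 → bC (x * y) = bC x * bC y :=
    fun hy => bC_mul hd (hle hy)
  -- identities of brackets lift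
  have lift : ∀ {x y w : End C (C ⊗[k] (V × W))}, x ∈ bcS C 𝔰 → y ∈ bcS C 𝔰 → w ∈ bcS C 𝔰 →
      bC x * bC y = bC y * bC x + bC w → x * y = y * x + w := by
    intro x y w hx hy hw hb
    obtain ⟨w', hw', hxy⟩ := hlie𝔰 (hle hx) hy
    have h2 : bC w' = bC w := by
      have h3 := congrArg bC hxy
      rw [map_add, hmulb hy, hmulb hx, hb] at h3
      exact (end_cancel h3).symm
    rw [hxy, cpl_inj' h hw' hw h2]
  have hne : ∀ i, n * e i = e i * n + e i := fun i => lift hn (he i) (he i) (by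
    rw [hnb, hebl, br_ne h0 h1 hs (hu i) (hu' i)])
  have hnf : ∀ i, n * f i = f i * n + (-1 : C) • f i := fun i =>
    lift hn (hf i) (Submodule.smul_mem _ _ (hf i)) (by
      rw [map_smul, hnb, hfbl, br_nf h0' h1 hs (hu i) (hu' i)])
  have hef : ∀ i, e i * f i = f i * e i + (-(B (u i) (u i))) • n := fun i =>
    lift (he i) (hf i) (Submodule.smul_mem _ _ hn) (by
      rw [map_smul, hnb, hebl, hfbl, br_ef h0 h0' h1 hs (hu i) (hu' i) (hu i) (hu' i), wdg_self,
        zero_add])
  have hij : ∀ i j, i ≠ j → e i * f j + e j * f i = f j * e i + f i * e j := by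
    intro i j hne'
    obtain ⟨w, hw, e1⟩ := hlie𝔰 (hle (he i)) (hf j)
    obtain ⟨w', hw', e2⟩ := hlie𝔰 (hle (he j)) (hf i)
    have b1 : bC w = wdg B (u i) (u j) := by
      have h3 := congrArg bC e1
      rw [map_add, hmulb (hf j), hmulb (he i), hebl, hfbl,
        br_ef h0 h0' h1 hs (hu i) (hu' i) (hu j) (hu' j), huu i j hne', neg_zero, zero_smul,
        add_zero] at h3
      exact (end_cancel h3).symm
    have b2 : bC w' = wdg B (u j) (u i) := by
      have h3 := congrArg bC e2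
      rw [map_add, hmulb (hf i), hmulb (he j), hebl, hfbl,
        br_ef h0 h0' h1 hs (hu j) (hu' j) (hu i) (hu' i), huu j i (Ne.symm hne'), neg_zero,
        zero_smul, add_zero] at h3
      exact (end_cancel h3).symm
    have h3 : w + w' = 0 := by
      refine cpl_inj h (Submodule.add_mem _ hw hw') ?_
      rw [map_add, b1, b2]
      exact wdg_add_swap _ _
    rw [e1, e2]
    have h4 : f j * e i + w + (f i * e j + w') = f j * e i + f i * e j + (w + w') := by abel
    rw [h4, h3, add_zero]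
  have hNe : ∀ i, N * e i = e i * N + e i := fun i => by
    rw [hNn, add_mul, mul_add, hne, hκ _ (he i)]
    abel
  have hNf : ∀ i, N * f i = f i * N + (-1 : C) • f i := fun i => by
    rw [hNn, add_mul, mul_add, hnf, hκ _ (hf i)]
    abel
  -- restriction
  have hr : ∀ {x y : End C (C ⊗[k] (V × W))}, y ∈ bcS C L → rs ι p (x * y) = rs ι p x * rs ι p y :=
    fun hy => rs_mul hd hpL hy
  have hdim' : finrank C (C ⊗[k] W₁) < 2 ^ ((m + 1) / 2) := by rwa [Module.finrank_baseChange]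
  have hzero := two_weights' (T := T) (N := rs ι p N) (n := rs ι p n) (t := t)
    (fun i => rs ι p (e i)) (fun i => rs ι p (f i)) (fun i => B (u i) (u i)) hui hT ht
    (fun i => by
      have h2 := congrArg (rs ι p) (hNe i)
      rw [map_add, hr (hle (he i)), hr hN] at h2
      exact h2)
    (fun i => by
      have h2 := congrArg (rs ι p) (hNf i)
      rw [map_add, map_smul, hr (hle (hf i)), hr hN] at h2
      exact h2)
    (fun i => by
      have h2 := congrArg (rs ι p) (hne i)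
      rw [map_add, hr (hle (he i)), hr (hle hn)] at h2
      exact h2)
    (fun i => by
      have h2 := congrArg (rs ι p) (hnf i)
      rw [map_add, map_smul, hr (hle (hf i)), hr (hle hn)] at h2
      exact h2)
    (fun i => by
      have h2 := congrArg (rs ι p) (hef i)
      rw [map_add, map_smul, hr (hle (he i)), hr (hle (hf i))] at h2
      exact h2)
    (fun i j hne' => by
      have h2 := congrArg (rs ι p) (hij i j hne')
      rw [map_add, map_add, hr (hle (he i)), hr (hle (hf i)), hr (hle (he j)), hr (hle (hf j))] at h2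
      exact h2) hdim'
  -- the ideal of the elements which kill the piece
  let I : Submodule k (End k V) :=
    { carrier := {X | ∃ Z ∈ 𝔰, blk Z = X ∧ ∀ x, blk2 Z (ι x) = 0}
      zero_mem' := ⟨0, 𝔰.zero_mem, map_zero _, fun x => by rw [map_zero, LinearMap.zero_apply]⟩
      add_mem' := by
        rintro _ _ ⟨Z, hZ, rfl, h2⟩ ⟨Z', hZ', rfl, h3⟩
        exact ⟨Z + Z', 𝔰.add_mem hZ hZ', map_add _ _ _, fun x => by
          rw [map_add, LinearMap.add_apply, h2, h3, add_zero]⟩
      smul_mem' := by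
        rintro c _ ⟨Z, hZ, rfl, h2⟩
        exact ⟨c • Z, 𝔰.smul_mem c hZ, map_smul _ _ _, fun x => by
          rw [map_smul, LinearMap.smul_apply, h2, smul_zero]⟩ }
  have hI1 : I ≤ L.map blk := by
    rintro _ ⟨Z, hZ, rfl, -⟩
    exact ⟨Z, h.le hZ, rfl⟩
  have hI2 : ∀ A ∈ L.map blk, ∀ X ∈ I, A * X - X * A ∈ I := by
    rintro _ ⟨A, hA, rfl⟩ _ ⟨Z, hZ, rfl, h2⟩
    refine ⟨A * Z - Z * A, h.ideal A hA Z hZ, ?_, fun x => ?_⟩
    · refine LinearMap.ext fun x => ?_
      rw [ZD.blk_apply, LinearMap.sub_apply, Module.End.mul_apply, Module.End.mul_apply,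
        hd Z (h.le hZ), hd A hA, hd A hA, hd Z (h.le hZ)]
      rfl
    · rw [blk2_apply, LinearMap.sub_apply, Module.End.mul_apply, Module.End.mul_apply,
        hd Z (h.le hZ), hd A hA, hd A hA, hd Z (h.le hZ), h2]
      change blk2 A 0 - blk2 Z (blk2 A (ι x)) = 0
      rw [← hpL A hA, h2, map_zero, sub_zero]
  rcases hsimple I hI1 hI2 with h2 | h2
  · exfalso
    -- the element `e 0` gives a nonzero element of the ideal
    have h3 : e ⟨0, hm⟩ = 0 := by
      refine eq_zero_of_pM' _ fun π => h.inj _ (mem_bc.1 (he _) π) ?_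
      have h4 : ZD.blk (pM π (e ⟨0, hm⟩)) ∈ I := by
        refine ⟨pM π (e ⟨0, hm⟩), mem_bc.1 (he _) π, rfl, fun x => ?_⟩
        rw [← pM_bC2, pM_apply]
        have h5 := rs_ι hpL (hle (he ⟨0, hm⟩)) ((1 : C) ⊗ₜ[k] x)
        rw [LinearMap.baseChange_tmul, hzero] at h5
        rw [h5]
        simp
      rw [h2] at h4
      exact (Submodule.mem_bot k).1 h4
    have h5 := hebl ⟨0, hm⟩
    rw [h3, map_zero] at h5
    have h6 := LinearMap.congr_fun h5.symm v'
    rw [wdg_apply, h1, hs (u _) v', hu', one_smul, LinearMap.zero_apply] at h6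
    have h7 : u ⟨0, hm⟩ = 0 := by
      simpa using h6
    exact hui ⟨0, hm⟩ (by rw [h7, map_zero])
  · intro X hX
    rw [← h2] at hX
    obtain ⟨Z, hZ, h3, h4⟩ := hX
    exact ⟨Z, h.le hZ, h3, h4⟩

end piece

end Pool.Agent.H851.KS
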