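import Mathlib
import Pool.Agent.H851.IN.Split
import Pool.Agent.H851.KS.Piece

/-!
# The transcendental part over an extension field
-/

set_option autoImplicit false
set_option linter.unusedSectionVars false
set_option linter.unusedVariables false

namespace Pool.Agent.H851.KS

open Matrix Module TensorProduct Pool.Agent.Y114.RM
open Pool.Agent.H851.ZD Pool.Agent.H851.IN Pool.Agent.H851.KT Pool.Agent.H851.K3

section ortho

variable {C : Type} [Field C] [CharZero C] {A : Type} [AddCommGroup A] [Module C A]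
  [FiniteDimensional C A] {B : A →ₗ[C] A →ₗ[C] C}

/-- an orthogonal system orthogonal to a hyperbolic plane -/
theorem exists_ortho (hs : ∀ x y, B x y = B y x) (E : Submodule C A)
    (hE : ∀ x ∈ E, (∀ y ∈ E, B x y = 0) → x = 0) {v v' : A} (hv : v ∈ E) (hv' : v' ∈ E)
    (h0 : B v v = 0) (h0' : B v' v' = 0) (h1 : B v v' = 1) :
    ∃ u : Fin (finrank C E - 2) → A, (∀ i, u i ∈ E) ∧ (∀ i, B v (u i) = 0) ∧
      (∀ i, B v' (u i) = 0) ∧ (∀ i j, i ≠ j → B (u i) (u j) = 0) ∧ ∀ i, B (u i) (u i) ≠ 0 := by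
  let f : E →ₗ[C] C × C := (B v ∘ₗ E.subtype).prod (B v' ∘ₗ E.subtype)
  let E₀ : Submodule C E := LinearMap.ker f
  have hE₀ : ∀ x : E, x ∈ E₀ ↔ B v x = 0 ∧ B v' x = 0 := by
    intro x
    rw [LinearMap.mem_ker]
    exact Prod.ext_iff
  let i₀ : E₀ →ₗ[C] A := E.subtype ∘ₗ E₀.subtype
  let B₀ : LinearMap.BilinForm C E₀ := B.compl₁₂ i₀ i₀
  have hB₀ : ∀ x y, B₀ x y = B (i₀ x) (i₀ y) := fun x y => rfl
  have hi₀E : ∀ x, i₀ x ∈ E := fun x => (x : E).2
  have hi₀v : ∀ x, B v (i₀ x) = 0 := fun x => ((hE₀ _).1 x.2).1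
  have hi₀v' : ∀ x, B v' (i₀ x) = 0 := fun x => ((hE₀ _).1 x.2).2
  have hi₀inj : ∀ x, i₀ x = 0 → x = 0 := fun x hx => Subtype.ext (Subtype.ext hx)
  have hdim : finrank C E - 2 ≤ finrank C E₀ := by
    have h2 := LinearMap.finrank_range_add_finrank_ker f
    have h3 : finrank C (LinearMap.range f) ≤ finrank C (C × C) := Submodule.finrank_le _
    rw [Module.finrank_prod, Module.finrank_self] at h3
    have h4 : finrank C E₀ = finrank C (LinearMap.ker f) := rfl
    omega
  have : Invertible (2 : C) := invertibleOfNonzero two_ne_zero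
  obtain ⟨e, he⟩ := LinearMap.BilinForm.exists_orthogonal_basis (B := B₀) ⟨fun x y => hs _ _⟩
  refine ⟨fun i => i₀ (e (Fin.castLE hdim i)), fun i => hi₀E _, fun i => hi₀v _, fun i => hi₀v' _,
    fun i j hij => ?_, fun i hi => ?_⟩
  · exact he (fun h => hij (Fin.castLE_injective hdim h))
  · set i' := Fin.castLE hdim i with hi'
    have h2 : ∀ z : E₀, B (i₀ (e i')) (i₀ z) = 0 := by
      intro z
      have h4 : z = ∑ j, e.repr z j • e j := (e.sum_repr z).symm
      have h5 : B₀ (e i') z = 0 := by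
        rw [h4, map_sum]
        refine Finset.sum_eq_zero fun j _ => ?_
        rw [map_smul]
        by_cases hij : i' = j
        · rw [← hij]
          have h6 : B₀ (e i') (e i') = 0 := hi
          rw [h6, smul_zero]
        · have h6 : B₀ (e i') (e j) = 0 := he hij
          rw [h6, smul_zero]
      exact h5
    have h3 : i₀ (e i') = 0 := by
      refine hE _ (hi₀E _) fun y hy => ?_
      let z : A := y - (B v' y) • v - (B v y) • v'
      have hzE : z ∈ E := E.sub_mem (E.sub_mem hy (E.smul_mem _ hv)) (E.smul_mem _ hv')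
      have hz : (⟨z, hzE⟩ : E) ∈ E₀ := by
        rw [hE₀]
        constructor
        · change B v (y - (B v' y) • v - (B v y) • v') = 0
          rw [map_sub, map_sub, map_smul, map_smul, h0, h1, smul_zero, smul_eq_mul, mul_one,
            sub_zero, sub_self]
        · change B v' (y - (B v' y) • v - (B v y) • v') = 0
          rw [map_sub, map_sub, map_smul, map_smul, h0', hs v' v, h1, smul_zero, smul_eq_mul,
            mul_one, sub_zero, sub_self]
      have h5 := h2 ⟨_, hz⟩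
      have h6 : i₀ ⟨_, hz⟩ = y - (B v' y) • v - (B v y) • v' := rfl
      rw [h6, map_sub, map_sub, map_smul, map_smul, hs _ v, hs _ v', hi₀v, hi₀v', smul_zero,
        smul_zero, sub_zero, sub_zero] at h5
      exact h5
    exact e.ne_zero i' (hi₀inj _ h3)

end ortho

section TC

variable {k : Type} [Field k] [CharZero k] {C : Type} [Field C] [CharZero C] [Algebra k C]
  {n ι : Type} [Fintype n] [DecidableEq n] [Fintype ι]
    [DecidableEq ι] {q : Matrix n n k} {L : Submodule k (Matrix n n k)} {T : Submodule k (n → k)}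
    {a : ι → k} {U : Matrix n ι k} {W : Matrix ι n k}

theorem Frame_form (F : Frame q L T a U W) (ξ : ι → k) (y : n → k) :
    form q (U *ᵥ ξ) y = ∑ i, ξ i * (a i * (W *ᵥ y) i) := by
  have h1 : U *ᵥ ξ = ∑ i, ξ i • (U *ᵥ Pi.single i 1) := by
    conv_lhs => rw [pi_eq_sum_univ' ξ]
    rw [Matrix.mulVec_sum]
    refine Finset.sum_congr rfl fun i _ => ?_
    rw [Matrix.mulVec_smul]
  rw [h1, map_sum, LinearMap.sum_apply]
  refine Finset.sum_congr rfl fun i _ => ?_
  rw [map_smul, LinearMap.smul_apply, smul_eq_mul, F.pair, ← mul_assoc (a i),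
    mul_inv_cancel₀ (F.ne i), one_mul]

theorem Frame_wdg (F : Frame q L T a U W) {x y : n → k} (hx : x ∈ T) (hy : y ∈ T) :
    LinearMap.toMatrix' (wdg (form q) x y) ∈ L := by
  rw [F.mem]
  refine ⟨Matrix.of fun i j => a j * ((W *ᵥ x) j * (W *ᵥ y) i - (W *ᵥ y) j * (W *ᵥ x) i),
    fun i j => ?_, ?_⟩
  · simp only [Matrix.of_apply]
    ring
  · refine Matrix.toLin'.injective (LinearMap.ext fun z => ?_)
    rw [Matrix.toLin'_toMatrix', wdg_apply, toLin'_apply]
    have e1 : ∀ x ∈ T, form q x z = ∑ i, (W *ᵥ x) i * (a i * (W *ᵥ z) i) := by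
      intro x hx
      conv_lhs => rw [← F.right x hx]
      exact Frame_form F _ z
    rw [e1 x hx, e1 y hy]
    have e2 : (U * (Matrix.of fun i j => a j * ((W *ᵥ x) j * (W *ᵥ y) i -
        (W *ᵥ y) j * (W *ᵥ x) i)) * W) *ᵥ z = U *ᵥ ((Matrix.of fun i j => a j *
          ((W *ᵥ x) j * (W *ᵥ y) i - (W *ᵥ y) j * (W *ᵥ x) i)) *ᵥ (W *ᵥ z)) := by
      simp only [Matrix.mulVec_mulVec, Matrix.mul_assoc]
    have e3 : (Matrix.of fun i j => a j * ((W *ᵥ x) j * (W *ᵥ y) i -
        (W *ᵥ y) j * (W *ᵥ x) i)) *ᵥ (W *ᵥ z) =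
        (∑ i, (W *ᵥ x) i * (a i * (W *ᵥ z) i)) • (W *ᵥ y) -
        (∑ i, (W *ᵥ y) i * (a i * (W *ᵥ z) i)) • (W *ᵥ x) := by
      funext i
      rw [Pi.sub_apply, Pi.smul_apply, Pi.smul_apply, smul_eq_mul, smul_eq_mul, Finset.sum_mul,
        Finset.sum_mul, ← Finset.sum_sub_distrib]
      change ∑ j, _ = _
      refine Finset.sum_congr rfl fun j _ => ?_
      simp only [Matrix.of_apply]
      ring
    rw [e2, e3, Matrix.mulVec_sub, Matrix.mulVec_smul, Matrix.mulVec_smul, F.right _ hx,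
      F.right _ hy]

variable (C) in
/-- the subspace over the extension field -/
noncomputable def TC (T : Submodule k (n → k)) : Submodule C (C ⊗[k] (n → k)) :=
  LinearMap.range (T.subtype.baseChange C)

theorem tmul_mem_TC {x : n → k} (hx : x ∈ T) (c : C) : (c ⊗ₜ[k] x : C ⊗[k] (n → k)) ∈ TC C T :=
  ⟨c ⊗ₜ[k] (⟨x, hx⟩ : T), LinearMap.baseChange_tmul _ _ _⟩

theorem TC_induction {P : C ⊗[k] (n → k) → Prop} (h0 : P 0)
    (h1 : ∀ (c : C) (x : n → k), x ∈ T → P (c ⊗ₜ[k] x)) (h2 : ∀ x y, P x → P y → P (x + y))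
    {z : C ⊗[k] (n → k)} (hz : z ∈ TC C T) : P z := by
  obtain ⟨w, rfl⟩ := hz
  induction w with
  | zero => rw [map_zero]; exact h0
  | add x y hx hy => rw [map_add]; exact h2 _ _ hx hy
  | tmul c x => rw [LinearMap.baseChange_tmul]; exact h1 c x x.2

theorem finrank_TC : finrank C (TC C T) = finrank k T := by
  obtain ⟨g, hg⟩ := LinearMap.exists_leftInverse_of_injective T.subtype T.ker_subtype
  have hinj : Function.Injective (T.subtype.baseChange C) := by
    intro x y hxy
    have h1 : ∀ z, g.baseChange C (T.subtype.baseChange C z) = z := by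
      intro z
      have h2 : g.baseChange C ∘ₗ T.subtype.baseChange C = LinearMap.id := by
        rw [← LinearMap.baseChange_comp, hg, LinearMap.baseChange_id]
      exact LinearMap.congr_fun h2 z
    rw [← h1 x, hxy, h1]
  rw [TC, LinearMap.finrank_range_of_inj hinj, Module.finrank_baseChange]

theorem TC_nondeg (hq : ∀ x : n → k, (∀ y, form q x y = 0) → x = 0) (F : Frame q L T a U W)
    (x : C ⊗[k] (n → k)) (hx : x ∈ TC C T)
    (h : ∀ y ∈ TC C T, bcB C (form q) x y = 0) : x = 0 := by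
  refine bcB_nondeg hq x fun y => ?_
  have h1 : ∀ (w : n → k), bcB C (form q) x (1 ⊗ₜ[k] w) =
      bcB C (form q) x (1 ⊗ₜ[k] (U *ᵥ (W *ᵥ w))) := by
    intro w
    clear h
    refine TC_induction (P := fun x => bcB C (form q) x (1 ⊗ₜ[k] w) =
      bcB C (form q) x (1 ⊗ₜ[k] (U *ᵥ (W *ᵥ w)))) ?_ ?_ ?_ hx
    · simp
    · intro c t ht
      rw [bcB_tmul, bcB_tmul]
      congr 2
      rw [← F.right t ht, Frame_form F, Frame_form F]
      have h2 : W *ᵥ (U *ᵥ (W *ᵥ w)) = W *ᵥ w := by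
        rw [Matrix.mulVec_mulVec _ W U, F.one, Matrix.one_mulVec]
      rw [h2]
    · intro x y hx hy
      rw [map_add, LinearMap.add_apply, LinearMap.add_apply, hx, hy]
  induction y with
  | zero => rw [map_zero]
  | add y z hy hz => rw [map_add, hy, hz, add_zero]
  | tmul c w =>
    have h2 : (c ⊗ₜ[k] w : C ⊗[k] (n → k)) = c • ((1 : C) ⊗ₜ[k] w) := by
      rw [TensorProduct.smul_tmul', smul_eq_mul, mul_one]
    rw [h2, map_smul, h1, h _ (tmul_mem_TC (F.left _) 1), smul_zero]

/-- the Lie algebra as a space of endomorphisms -/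
noncomputable def lin (L : Submodule k (Matrix n n k)) : Submodule k (End k (n → k)) :=
  L.map (Matrix.toLin' : Matrix n n k ≃ₗ[k] _).toLinearMap

theorem bc_wdg (b : (n → k) →ₗ[k] (n → k) →ₗ[k] k) (x y : n → k) :
    (wdg b x y).baseChange C = wdg (bcB C b) (1 ⊗ₜ[k] x) (1 ⊗ₜ[k] y) := by
  refine TensorProduct.AlgebraTensorModule.curry_injective (LinearMap.ext fun c =>
    LinearMap.ext fun u => ?_)
  change (wdg b x y).baseChange C (c ⊗ₜ[k] u) = wdg (bcB C b) (1 ⊗ₜ[k] x) (1 ⊗ₜ[k] y) (c ⊗ₜ[k] u)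
  rw [LinearMap.baseChange_tmul, wdg_apply, wdg_apply, bcB_tmul, bcB_tmul, mul_one,
    TensorProduct.tmul_sub, TensorProduct.smul_tmul', TensorProduct.smul_tmul', smul_eq_mul,
    smul_eq_mul, mul_one, mul_one, TensorProduct.tmul_smul, TensorProduct.tmul_smul,
    TensorProduct.smul_tmul', TensorProduct.smul_tmul', Algebra.smul_def, Algebra.smul_def,
    mul_comm c, mul_comm c]

theorem wdg_add_left {A : Type} [AddCommGroup A] [Module C A] (B : A →ₗ[C] A →ₗ[C] C)
    (a b c : A) : wdg B (a + b) c = wdg B a c + wdg B b c := by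
  rw [wdg_swap, wdg_add, wdg_swap B c a, wdg_swap B c b, neg_add, neg_neg, neg_neg]

theorem TC_wdg (F : Frame q L T a U W) {x y : C ⊗[k] (n → k)} (hx : x ∈ TC C T)
    (hy : y ∈ TC C T) : wdg (bcB C (form q)) x y ∈ bcS C (lin L) := by
  refine TC_induction (P := fun x => wdg (bcB C (form q)) x y ∈ bcS C (lin L)) ?_ ?_ ?_ hx
  · rw [wdg_zero_left]
    exact Submodule.zero_mem _
  · intro c t ht
    refine TC_induction (P := fun y => wdg (bcB C (form q)) (c ⊗ₜ[k] t) y ∈ bcS C (lin L)) ?_ ?_ ?_ hy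
    · rw [wdg_zero_right]
      exact Submodule.zero_mem _
    · intro c' t' ht'
      have h1 : ∀ (c : C) (t : n → k), (c ⊗ₜ[k] t : C ⊗[k] (n → k)) = c • ((1 : C) ⊗ₜ[k] t) := by
        intro c t
        rw [TensorProduct.smul_tmul', smul_eq_mul, mul_one]
      rw [h1 c, h1 c', wdg_smul, wdg_smul_left, ← bc_wdg]
      refine Submodule.smul_mem _ _ (Submodule.smul_mem _ _ (mem_bcS ?_))
      exact ⟨_, Frame_wdg F ht ht', Matrix.toLin'_toMatrix' _⟩
    · intro y z hy hz
      rw [wdg_add]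
      exact Submodule.add_mem _ hy hz
  · intro x z hx hz
    rw [wdg_add_left]
    exact Submodule.add_mem _ hx hz

theorem TC_range (F : Frame q L T a U W) {z : End C (C ⊗[k] (n → k))} (hz : z ∈ bcS C (lin L))
    (x : C ⊗[k] (n → k)) : z x ∈ TC C T := by
  induction hz using Submodule.span_induction with
  | mem z hz =>
    obtain ⟨_, ⟨X, hX, rfl⟩, rfl⟩ := hz
    induction x with
    | zero => rw [map_zero]; exact Submodule.zero_mem _
    | add x y hx hy => rw [map_add]; exact Submodule.add_mem _ hx hy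
    | tmul c w =>
      rw [LinearMap.baseChange_tmul]
      refine tmul_mem_TC ?_ c
      obtain ⟨M, -, rfl⟩ := (F.mem X).1 hX
      change Matrix.toLin' (U * M * W) w ∈ T
      rw [toLin'_apply, Matrix.mul_assoc, ← Matrix.mulVec_mulVec]
      exact F.left _
  | zero => exact Submodule.zero_mem _
  | add a b _ _ ha hb => exact Submodule.add_mem _ ha hb
  | smul c a _ ha => exact Submodule.smul_mem _ c ha

end TC

end Pool.Agent.H851.KS
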