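import Pool.Agent.H851.KS.Num

/-!
# The additive function of an ordinary Frobenius element, and eigenvalues of weight one
-/

set_option autoImplicit false

namespace Pool.Agent.H851.KS

open Matrix Polynomial Filter Topology NumberField IsDedekindDomain
open Pool.Agent.NH56.HY Pool.Agent.H851.K3

section

variable {K : Type} [Field K] [NumberField K] {ℓ : ℕ} [Fact ℓ.Prime] {n : Type}
    [Fintype n] [DecidableEq n] {q : Matrix n n ℚ_[ℓ]} {S : Finset ℕ} {χ : GK K →* ℚ_[ℓ]}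
    {Pol : HeightOneSpectrum (𝓞 K) → ℤ[X]} {ρ : GK K →* Matrix n n ℚ_[ℓ]}

open Classical in
/-- **Ordinary Frobenius elements** and eigenvalues of weight one. -/
theorem fro2 (h : IsK3Type q S χ Pol ρ) {p : ℕ} [hpf : Fact p.Prime] (hpS : p ∉ S)
    {v : HeightOneSpectrum (𝓞 K)} (hv : Ideal.absNorm v.asIdeal = p) {σ : GK K}
    (hσ : IsFrobenius v σ) (hord : ¬ (p : ℤ) ∣ (Pol v).coeff (Fintype.card n - 1))
    (hnear : σ⁻¹ ∈ Near χ ρ) (β : PadicAlgCl ℓ) (hβ : (R χ ρ σ⁻¹).charpoly.IsRoot β) (hβ1 : β ≠ 1) :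
    ∃ (A : PadicAlgCl ℓ → Prop) (φ : PadicAlgCl ℓ → ℝ) (ε : ℝ), AddOn A φ ∧
      (∀ γ, (R χ ρ σ⁻¹).charpoly.IsRoot γ → A γ) ∧ φ β = 1 ∧
      (∀ γ, (R χ ρ σ⁻¹).charpoly.IsRoot γ → γ ≠ β → γ ≠ β⁻¹ → φ γ = 0) ∧ (ε = 1 ∨ ε = -1) ∧
      ∀ (P : ℤ[X]) (j : ℤ), P.Monic → (∀ z : ℂ, aeval z P = 0 → ‖z‖ ^ 2 = p) →
        ∀ γ : PadicAlgCl ℓ, aeval ((p : PadicAlgCl ℓ) ^ j * γ) P = 0 →
          A γ ∧ ∃ c : ℚ, φ γ = c ∧ -(j : ℝ) ≤ ε * c ∧ ε * c ≤ 1 - j := by
  have hc := h.card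
  have hp1 : (1 : ℝ) < p := by exact_mod_cast hpf.out.one_lt
  obtain ⟨s⟩ := Pool.Agent.NH66.HY.Nwt.exists_hom ℚ (PadicAlgCl ℓ)
  obtain ⟨c⟩ := Pool.Agent.NH66.HY.Nwt.exists_hom ℚ ℂ
  obtain ⟨hmon, hweil⟩ := h.weil p hpS v hv
  have hcp := (h.frobenius p hpS v hv σ hσ).2
  have hdeg : (Pol v).natDegree = Fintype.card n := by
    rw [← hmon.natDegree_map (Int.castRingHom ℚ_[ℓ]), ← hcp, Matrix.charpoly_natDegree_eq_dim]
  have hnw := newton_eq (by omega) hmon hdeg hweil (h.mazur p hpS v hv) hord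
  have hroots := roots_eq h hpS hv hσ s
  have hne0 : ∀ z : ℂ, aeval z (Pol v) = 0 → z ≠ 0 := by
    intro z hz h
    have := hweil z hz
    rw [h, norm_zero] at this
    have h5 : (0 : ℝ) < (p : ℝ) ^ 2 := by positivity
    rw [← this] at h5
    norm_num at h5
  have hinv := Pool.Agent.NH66.HY.Nwt.roots_inv t_ARI hweil c hne0
  set R0 := ((Pol v).map (Int.castRingHom (AlgebraicClosure ℚ))).roots with hR0
  have hmM : (R χ ρ σ⁻¹).charpoly ≠ 0 := (Matrix.charpoly_monic _).ne_zero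
  have hroot : ∀ γ, (R χ ρ σ⁻¹).charpoly.IsRoot γ ↔ ∃ a ∈ R0, s (a / p) = γ := by
    intro γ
    rw [← mem_roots hmM, hroots, Multiset.mem_map]
  have hp0 : (p : AlgebraicClosure ℚ) ≠ 0 := Nat.cast_ne_zero.2 hpf.out.ne_zero
  have hR0a : ∀ a ∈ R0, aeval a (Pol v) = 0 := by
    intro a ha
    have h2 := isRoot_of_mem_roots ha
    rw [IsRoot.def, eval_map] at h2
    rw [aeval_def, Subsingleton.elim (algebraMap ℤ (AlgebraicClosure ℚ)) (Int.castRingHom _)]
    exact h2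
  have hari := fun a ha => t_ARI.2 (Pol v) p 2 hmon hweil a (hR0a a ha)
  obtain ⟨a₀, ha₀, hβ'⟩ := (hroot β).1 hβ
  -- a place where the slope is not one
  obtain ⟨π, hπ⟩ : ∃ π : AlgebraicClosure ℚ →+* PadicAlgCl p, -Real.logb p ‖π a₀‖ ≠ 1 := by
    by_contra hcon
    push Not at hcon
    obtain ⟨b1, b2, b3⟩ := hari a₀ ha₀
    have hk : ∃ k : ℕ, 0 < k ∧ (a₀ / p) ^ k = 1 := by
      refine t_KRO (a₀ / p) (fun τ => ?_) (fun p' hp' π => ?_)
      · have h1 : ‖τ (a₀ / p)‖ ^ 2 = 1 := by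
          rw [map_div₀, norm_div, div_pow, b2 τ, map_natCast, Complex.norm_natCast]
          exact div_self (by positivity)
        exact (pow_eq_one_iff_of_nonneg (norm_nonneg _) two_ne_zero).1 h1
      · by_cases hpe : p' = p
        · subst hpe
          have h1 := hcon π
          have h2 : ‖π a₀‖ ≠ 0 := norm_ne_zero_iff.2 ((map_ne_zero π).2 b1)
          have h3 : (0 : ℝ) < ‖π a₀‖ := lt_of_le_of_ne (norm_nonneg _) (Ne.symm h2)
          have h4 : ‖π a₀‖ = (p' : ℝ)⁻¹ := by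
            have h5 : Real.logb p' ‖π a₀‖ = -1 := by linarith
            have h6 := Real.rpow_logb (by linarith) hp1.ne' h3
            rw [h5, Real.rpow_neg_one] at h6
            exact h6.symm
          rw [map_div₀, norm_div, h4, map_natCast, Pool.Agent.NH66.HY.Nwt.norm_nat]
          exact div_self (inv_ne_zero (by positivity))
        · have h1 : (p.Coprime p') := (Nat.coprime_primes hpf.out hp'.out).2 (Ne.symm hpe)
          rw [map_div₀, norm_div, b3 p' π hpe, map_natCast, Ari.nat_eq p' p h1, div_one]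
    obtain ⟨k, hk0, hk⟩ := hk
    apply hβ1
    refine (t_NR1 ℓ).1 β (R_near χ ρ t_NR1 hnear β hβ) k hk0 ?_
    rw [← hβ', ← map_pow, hk, map_one]
  -- the slopes
  set f : AlgebraicClosure ℚ → ℝ := fun a => -Real.logb p ‖π a‖ with hf
  have hslopes : R0.map f = 0 ::ₘ 2 ::ₘ Multiset.replicate (Fintype.card n - 2) 1 := by
    rw [← hnw]
    unfold newton
    rw [t_ARI.1 (Pol v) (PadicAlgCl p) π, Multiset.map_map]
    rfl
  obtain ⟨s1, s2, s3⟩ := inj_of_slopes hslopes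
  have hnp : ‖(p : PadicAlgCl p)‖ = (p : ℝ)⁻¹ := Pool.Agent.NH66.HY.Nwt.norm_nat p
  -- the inverse
  have hinv0 : (p : AlgebraicClosure ℚ) ^ 2 / a₀ ∈ R0 := by
    rw [← hinv]
    exact Multiset.mem_map_of_mem (fun a => (p : AlgebraicClosure ℚ) ^ 2 / a) ha₀
  have ha₀0 : a₀ ≠ 0 := (hari a₀ ha₀).1
  have hfinv : f ((p : AlgebraicClosure ℚ) ^ 2 / a₀) = 2 - f a₀ := by
    simp only [hf]
    have h2 : ‖π a₀‖ ≠ 0 := norm_ne_zero_iff.2 ((map_ne_zero π).2 ha₀0)
    rw [map_div₀, norm_div, map_pow, map_natCast, norm_pow, hnp,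
      Real.logb_div (by positivity) h2, Real.logb_pow,
      Real.logb_inv, Real.logb_self_eq_one hp1]
    push_cast
    ring
  have hβinv : s ((p : AlgebraicClosure ℚ) ^ 2 / a₀ / p) = β⁻¹ := by
    rw [← hβ', ← map_inv₀]
    congr 1
    field_simp
  let A : PadicAlgCl ℓ → Prop := fun x => ∃ t, t ≠ 0 ∧ s t = x
  let ψ : PadicAlgCl ℓ → ℝ := fun x => if hx : ∃ t, s t = x then Real.logb p ‖π hx.choose‖ else 0
  have hψ : ∀ t, ψ (s t) = Real.logb p ‖π t‖ := by
    intro t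
    have hx : ∃ t', s t' = s t := ⟨t, rfl⟩
    have e : ψ (s t) = Real.logb p ‖π hx.choose‖ := dif_pos hx
    rw [e, s.injective hx.choose_spec]
  have hAψ : ∀ c : ℝ, AddOn A fun x => c * ψ x := by
    intro c
    refine ⟨⟨1, one_ne_zero, map_one s⟩, ?_, ?_, ?_, ?_⟩
    · rintro _ _ ⟨t, ht, rfl⟩ ⟨u, hu, rfl⟩
      exact ⟨t * u, mul_ne_zero ht hu, map_mul s t u⟩
    · rintro _ ⟨t, ht, rfl⟩
      exact ⟨t⁻¹, inv_ne_zero ht, map_inv₀ s t⟩
    · rintro _ ⟨t, ht, rfl⟩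
      exact (map_ne_zero s).2 ht
    · rintro _ _ ⟨t, ht, rfl⟩ ⟨u, hu, rfl⟩
      rw [← map_mul, hψ, hψ, hψ, map_mul, norm_mul,
        Real.logb_mul (norm_ne_zero_iff.2 ((map_ne_zero π).2 ht))
          (norm_ne_zero_iff.2 ((map_ne_zero π).2 hu))]
      ring
  have hψr : ∀ a ∈ R0, ψ (s (a / p)) = 1 - f a := by
    intro a ha
    have h2 : ‖π a‖ ≠ 0 := norm_ne_zero_iff.2 ((map_ne_zero π).2 (hari a ha).1)
    simp only [hf]
    rw [hψ, map_div₀, norm_div, map_natCast, hnp, Real.logb_div h2 (by positivity), Real.logb_inv,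
      Real.logb_self_eq_one hp1]
    ring
  refine ⟨A, fun x => (1 - f a₀)⁻¹ * ψ x, -(1 - f a₀)⁻¹, hAψ _, ?_, ?_, ?_, ?_, ?_⟩
  · intro γ hγ
    obtain ⟨a, ha, rfl⟩ := (hroot γ).1 hγ
    exact ⟨a / p, div_ne_zero (hari a ha).1 hp0, rfl⟩
  · simp only
    rw [← hβ', hψr a₀ ha₀]
    exact inv_mul_cancel₀ (sub_ne_zero.2 (Ne.symm hπ))
  · intro γ hγ h1 h2
    obtain ⟨a, ha, rfl⟩ := (hroot γ).1 hγ
    simp only
    rw [hψr a ha]
    by_cases hfa : f a = 1
    · rw [hfa, sub_self, mul_zero]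
    · exfalso
      have h3 : f a = f a₀ ∨ f a = 2 - f a₀ := by
        rcases s1 a ha with e1 | e1 | e1 <;> rcases s1 a₀ ha₀ with e2 | e2 | e2
        · left; rw [e1, e2]
        · right; rw [e1, e2]; norm_num
        · exact absurd e2 hπ
        · right; rw [e1, e2]; norm_num
        · left; rw [e1, e2]
        · exact absurd e2 hπ
        · exact absurd e1 hfa
        · exact absurd e1 hfa
        · exact absurd e1 hfa
      rcases h3 with h3 | h3
      · have h4 := s3 a ha a₀ ha₀ hfa h3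
        exact h1 (by rw [h4, hβ'])
      · have h4 := s3 a ha _ hinv0 hfa (by rw [h3, hfinv])
        exact h2 (by rw [h4, hβinv])
  · rcases s1 a₀ ha₀ with e2 | e2 | e2
    · right; rw [e2]; norm_num
    · left; rw [e2]; norm_num
    · exact absurd e2 hπ
  · intro P j hP hW γ hγ
    -- the root over the algebraic numbers
    have hP0 : P.map (Int.castRingHom (PadicAlgCl ℓ)) ≠ 0 := (hP.map _).ne_zero
    have h1 : (p : PadicAlgCl ℓ) ^ j * γ ∈ (P.map (Int.castRingHom (PadicAlgCl ℓ))).roots := by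
      rw [mem_roots hP0, IsRoot.def, eval_map]
      rw [aeval_def, Subsingleton.elim (algebraMap ℤ (PadicAlgCl ℓ)) (Int.castRingHom _)] at hγ
      exact hγ
    rw [t_ARI.1 P (PadicAlgCl ℓ) s, Multiset.mem_map] at h1
    obtain ⟨a, ha, hsa⟩ := h1
    have haP : aeval a P = 0 := by
      have h2 := isRoot_of_mem_roots ha
      rw [IsRoot.def, eval_map] at h2
      rw [aeval_def, Subsingleton.elim (algebraMap ℤ (AlgebraicClosure ℚ)) (Int.castRingHom _)]
      exact h2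
    obtain ⟨ha0, hl, hu⟩ := slope_one hP hW π haP
    have hpl : (p : PadicAlgCl ℓ) ≠ 0 := Nat.cast_ne_zero.2 hpf.out.ne_zero
    have hγ' : γ = s ((p : AlgebraicClosure ℚ) ^ (-j) * a) := by
      rw [map_mul, map_zpow₀, map_natCast, hsa, ← mul_assoc, ← zpow_add₀ hpl, neg_add_cancel,
        zpow_zero, one_mul]
    have hne : (p : AlgebraicClosure ℚ) ^ (-j) * a ≠ 0 := mul_ne_zero (zpow_ne_zero _ hp0) ha0
    have hψγ : ψ γ = j + Real.logb p ‖π a‖ := by
      rw [hγ', hψ, map_mul, norm_mul, map_zpow₀, map_natCast, norm_zpow, hnp,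
        Real.logb_mul (by positivity) (norm_ne_zero_iff.2 ((map_ne_zero π).2 ha0)), _root_.inv_zpow,
        ← _root_.zpow_neg, neg_neg, ← Real.rpow_intCast, Real.logb_rpow (by linarith) hp1.ne']
    obtain ⟨c, hc⟩ := logb_rat p (π a) ((map_ne_zero π).2 ha0)
    refine ⟨⟨_, hne, hγ'.symm⟩, ?_⟩
    rw [hc] at hl hu
    rcases s1 a₀ ha₀ with e2 | e2 | e2
    · refine ⟨j + c, ?_, ?_, ?_⟩
      · simp only
        rw [hψγ, hc, e2]
        push_cast
        ring
      · rw [e2]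
        push_cast
        linarith
      · rw [e2]
        push_cast
        linarith
    · refine ⟨-(j + c), ?_, ?_, ?_⟩
      · simp only
        rw [hψγ, hc, e2]
        push_cast
        ring
      · rw [e2]
        push_cast
        linarith
      · rw [e2]
        push_cast
        linarith
    · exact absurd e2 hπ

end

end Pool.Agent.H851.KS
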