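import Mathlib
import Pool.Agent.H851.KS.Fro2
import Pool.Agent.H851.KT.Lie

/-!
# Existence of ordinary places in a given open subgroup
-/

set_option autoImplicit false
set_option linter.unusedSectionVars false
set_option linter.unusedVariables false

namespace Pool.Agent.H851.KS

open Module TensorProduct Pool.Agent.Y114.RM Pool.Agent.TH118.SG Polynomial Matrix Topology
open NumberField IsDedekindDomain
open Pool.Agent.H851.K3 Pool.Agent.H851.KT
open Pool.Agent.NH56.HY (GK IsFrobenius tw tw_apply R chi_ne Near NonUnip t_ORD t_NR1 t_DG1 small_pos)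
open Pool.Agent.H204R3.GP (FiniteIndexSemisimple)

variable {K : Type} [Field K] [NumberField K] {ℓ : ℕ} [hℓ : Fact ℓ.Prime] {n : Type}
    [Fintype n] [DecidableEq n] {q : Matrix n n ℚ_[ℓ]} {S : Finset ℕ} {χ : GK K →* ℚ_[ℓ]}
    {Pol : HeightOneSpectrum (𝓞 K) → ℤ[X]} {ρ : GK K →* Matrix n n ℚ_[ℓ]}

/-- if not all classes are Tate classes, then no open subgroup acts unipotently -/
theorem nonUnip (hss : Semisimple ρ) (hT : tate χ ρ ≠ ⊤) : NonUnip χ ρ := by
  by_contra hNU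
  unfold NonUnip at hNU
  push Not at hNU
  obtain ⟨W, hWo, hW⟩ := hNU
  apply hT
  have hfss : FiniteIndexSemisimple (rep χ ρ) := finiteIndexSemisimple hss
  have hcomp : CompactSpace (GK K) := inferInstance
  have hfin : Finite (GK K ⧸ W) := Subgroup.quotient_finite_of_isOpen _ hWo
  have hWf : W.FiniteIndex := Subgroup.finiteIndex_of_finite_quotient
  have h1 := fixes hfss W hWf 1 (one_mul 1) (fun g _ => by rw [one_mul, mul_one])
    (Fintype.card n) (fun g hg => by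
      obtain ⟨k, hk⟩ := hW g hg
      have e1 : tw χ ρ g - 1 = (χ g)⁻¹ • (ρ g - χ g • (1 : Matrix n n ℚ_[ℓ])) := by
        rw [tw_apply, smul_sub, smul_smul, inv_mul_cancel₀ (chi_ne χ g), one_smul]
      have e2 : (tw χ ρ g - 1) ^ k = 0 := by rw [e1, _root_.smul_pow, hk, smul_zero]
      have e3 : Matrix.toLin' ((tw χ ρ g - 1) ^ (Fintype.card n)) = 0 := by
        rw [Matrix.toLin'_pow]
        have h1 := Module.End.ker_pow_le_ker_pow_finrank (Matrix.toLin' (tw χ ρ g - 1)) k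
        rw [← Matrix.toLin'_pow, e2, map_zero, LinearMap.ker_zero,
          Module.finrank_fintype_fun_eq_card, top_le_iff] at h1
        exact LinearMap.ker_eq_top.1 h1
      rw [Matrix.toLin'_pow, map_sub, Matrix.toLin'_one] at e3
      rw [mul_one]
      exact e3)
  rw [eq_top_iff]
  rintro x -
  refine ⟨W, hWo, fun g hg => ?_⟩
  have h2 := LinearMap.congr_fun (h1 g hg) x
  rw [mul_one, Module.End.one_apply, rep_apply, tw_apply, Matrix.smul_mulVec] at h2
  have h3 := congrArg (fun y => χ g • y) h2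
  simp only [smul_smul, mul_inv_cancel₀ (chi_ne χ g), one_smul] at h3
  exact h3

/-- **Ordinary places.** -/
theorem exists_place (h : IsK3Type q S χ Pol ρ) (hss : Semisimple ρ) (hT : tate χ ρ ≠ ⊤)
    (S' : Finset ℕ) (U : Subgroup (GK K)) (hU : IsOpen (U : Set (GK K))) :
    ∃ (p : ℕ) (_ : Fact p.Prime), p ∉ S ∧ p ∉ S' ∧ ∃ v : HeightOneSpectrum (𝓞 K),
      Ideal.absNorm v.asIdeal = p ∧ ∃ σ : GK K, IsFrobenius v σ ∧ σ⁻¹ ∈ U ∧ σ⁻¹ ∈ Near χ ρ ∧
        ¬ (p : ℤ) ∣ (Pol v).coeff (Fintype.card n - 1) ∧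
        ∃ β, (R χ ρ σ⁻¹).charpoly.IsRoot β ∧ β ≠ 1 := by
  classical
  have hc := h.card
  have hNU := nonUnip hss hT
  obtain ⟨U₁, hU₁, hUN⟩ := near_open h.continuous.1 h.continuous.2
  obtain ⟨g₀, hg₀, hnil⟩ := hNU (U₁ ⊓ U) (hU₁.inter hU)
  have hg : (tw χ ρ g₀ - 1) ^ Fintype.card n ≠ 0 := by
    intro h0
    refine hnil ⟨Fintype.card n, ?_⟩
    have e1 : ρ g₀ - χ g₀ • (1 : Matrix n n ℚ_[ℓ]) = χ g₀ • (tw χ ρ g₀ - 1) := by
      rw [tw_apply, smul_sub, smul_smul, mul_inv_cancel₀ (chi_ne χ g₀), one_smul]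
    rw [e1, _root_.smul_pow, h0, smul_zero]
  have hVo : IsOpen (((U₁ ⊓ U : Subgroup (GK K)) : Set (GK K)) ∩
      {g | (tw χ ρ g - 1) ^ Fintype.card n ≠ 0}) := by
    refine (hU₁.inter hU).inter ?_
    have h2 : Continuous fun g => (tw χ ρ g - 1) ^ Fintype.card n :=
      ((tw_continuous h.continuous.1 h.continuous.2).sub continuous_const).pow _
    exact (isClosed_singleton (x := (0 : Matrix n n ℚ_[ℓ]))).isOpen_compl.preimage h2
  obtain ⟨p, hp, hpS, v, hv, ⟨σ, hσ, hσV⟩, hord⟩ := t_ORD t_NR1 t_DG1 K ℓ n (S ∪ S') χ ρ Pol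
    h.continuous.2 h.continuous.1 (by omega)
    (fun p hp hpS v hv => by
      have : Fact p.Prime := ⟨hp⟩
      have hpS' : p ∉ S := fun h' => hpS (Finset.mem_union_left _ h')
      exact ⟨(h.weil p hpS' v hv).1, (h.weil p hpS' v hv).2, h.frobenius p hpS' v hv⟩)
    hNU _ hVo ⟨g₀, hg₀, hg⟩ (fun g hg => hUN hg.1.1)
  have : Fact p.Prime := ⟨hp⟩
  refine ⟨p, this, fun h' => hpS (Finset.mem_union_left _ h'),
    fun h' => hpS (Finset.mem_union_right _ h'), v, hv, σ, hσ, hσV.1.2, hUN hσV.1.1, hord, ?_⟩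
  by_contra hcon
  push Not at hcon
  apply hσV.2
  have h1 : (R χ ρ σ⁻¹).charpoly = (X - C 1) ^ Fintype.card n := by
    rw [(IsAlgClosed.splits (R χ ρ σ⁻¹).charpoly).eq_prod_roots_of_monic
      (Matrix.charpoly_monic _)]
    have h2 : (R χ ρ σ⁻¹).charpoly.roots = Multiset.replicate (Fintype.card n) 1 := by
      rw [Multiset.eq_replicate]
      refine ⟨?_, fun b hb => hcon b (isRoot_of_mem_roots hb)⟩
      rw [← (IsAlgClosed.splits _).natDegree_eq_card_roots, Matrix.charpoly_natDegree_eq_dim]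
    rw [h2, Multiset.map_replicate, Multiset.prod_replicate]
  have h2 := Matrix.aeval_self_charpoly (R χ ρ σ⁻¹)
  rw [h1, map_pow, map_sub, aeval_X, aeval_C, map_one, K3.R_eq] at h2
  have h3 : ((tw χ ρ σ⁻¹ - 1) ^ Fintype.card n).map (algebraMap ℚ_[ℓ] (PadicAlgCl ℓ)) = 0 := by
    have h4 : ((tw χ ρ σ⁻¹ - 1) ^ Fintype.card n).map (algebraMap ℚ_[ℓ] (PadicAlgCl ℓ)) =
        ((algebraMap ℚ_[ℓ] (PadicAlgCl ℓ)).mapMatrix (tw χ ρ σ⁻¹ - 1)) ^ Fintype.card n := by
      rw [← map_pow]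
      rfl
    rw [h4, map_sub, map_one]
    exact h2
  refine Matrix.map_injective (algebraMap ℚ_[ℓ] (PadicAlgCl ℓ)).injective ?_
  refine h3.trans ?_
  ext i j
  simp

end Pool.Agent.H851.KS
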