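import Mathlib
import Pool.Agent.H851.KS.Hyp
import Pool.Agent.H851.KS.Place

/-!
# Representations of K3 type and pieces of weight one
-/

set_option autoImplicit false
set_option linter.unusedSectionVars false
set_option linter.unusedVariables false

namespace Pool.Agent.H851.KS

open Module TensorProduct Pool.Agent.Y114.RM Pool.Agent.TH118.SG Polynomial Matrix Topology
open NumberField IsDedekindDomain
open Pool.Agent.H851.K3 Pool.Agent.H851.KT Pool.Agent.H851.TT Pool.Agent.H851.ZD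
open Pool.Agent.H851.IN
open Pool.Agent.NH56.HY (GK IsFrobenius tw tw_apply R chi_ne Near NonUnip)
open Pool.Agent.H204R3.GP (FiniteIndexSemisimple)

section gen

variable {C : Type} [Field C] {E E' : Type} [AddCommGroup E] [Module C E] [AddCommGroup E']
  [Module C E']

/-- maps of generalized eigenspaces -/
theorem gen_map {T : End C E} {T' : End C E'} {i : E →ₗ[C] E'} (h : ∀ x, T' (i x) = i (T x))
    {β : C} {x : E} (hx : x ∈ T.maxGenEigenspace β) : i x ∈ T'.maxGenEigenspace β := by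
  rw [Module.End.mem_maxGenEigenspace] at hx ⊢
  obtain ⟨k, hk⟩ := hx
  refine ⟨k, ?_⟩
  have h2 : ∀ (k : ℕ) (y : E), ((T' - β • (1 : End C E')) ^ k : End C E') (i y) =
      i (((T - β • (1 : End C E)) ^ k : End C E) y) := by
    intro k
    induction k with
    | zero => intro y; rfl
    | succ k ih =>
      intro y
      rw [pow_succ, Module.End.mul_apply, pow_succ, Module.End.mul_apply, ← ih]
      congr 1
      rw [LinearMap.sub_apply, LinearMap.sub_apply, map_sub, LinearMap.smul_apply,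
        LinearMap.smul_apply, map_smul, Module.End.one_apply, Module.End.one_apply, h]
  rw [h2, hk, map_zero]

/-- eigenvalues are roots of annihilating polynomials -/
theorem root_of_gen {T : End C E} {c : C} {P : ℤ[X]} (hP : aeval (c • T) P = 0) {α : C}
    (hα : T.maxGenEigenspace α ≠ ⊥) : aeval (c * α) P = 0 := by
  have h1 : T.HasEigenvalue α := by
    have h2 : T.HasUnifEigenvalue α ⊤ := hα
    exact h2.lt zero_lt_one
  obtain ⟨x, hx⟩ := h1.exists_hasEigenvector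
  have h2 : (c • T).HasEigenvector (c * α) x := by
    refine ⟨?_, hx.2⟩
    rw [Module.End.mem_eigenspace_iff, LinearMap.smul_apply, hx.apply_eq_smul, smul_smul]
  have h3 : aeval (c • T) (P.map (Int.castRingHom C)) = 0 := by
    rw [← algebraMap_int_eq, aeval_map_algebraMap]
    exact hP
  have h4 := Module.End.aeval_apply_of_hasEigenvector (p := P.map (Int.castRingHom C)) h2
  rw [h3, LinearMap.zero_apply] at h4
  have h5 := (smul_eq_zero.1 h4.symm).resolve_right hx.2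
  rw [eval_map, ← algebraMap_int_eq] at h5
  exact h5

end gen

section prod

variable {k : Type} [Field k] {V W : Type} [AddCommGroup V] [Module k V] [AddCommGroup W]
  [Module k W] {Γ : Type} [Group Γ] {r : Representation k Γ V} {σ : Representation k Γ W}

theorem prod_semisimple (hr : FiniteIndexSemisimple r) (hs : FiniteIndexSemisimple σ) :
    FiniteIndexSemisimple (r.prod σ) := by
  intro Δ hΔ X hX
  obtain ⟨A', hA', hA⟩ := hr Δ hΔ (X.comap (LinearMap.inl k V W)) (by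
    intro g hg x hx
    have h1 := hX g hg _ hx
    rw [prod_apply] at h1
    change ((r g x, 0) : V × W) ∈ X
    have h2 : σ g (0 : W) = 0 := map_zero _
    rw [LinearMap.inl_apply] at h1
    rw [h2] at h1
    exact h1)
  obtain ⟨B', hB', hB⟩ := hs Δ hΔ (X.map (LinearMap.snd k V W)) (by
    rintro g hg _ ⟨x, hx, rfl⟩
    exact ⟨_, hX g hg x hx, rfl⟩)
  refine ⟨A'.prod B', ?_, ?_⟩
  · intro g hg x hx
    rw [Submodule.mem_prod] at hx ⊢
    rw [prod_apply]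
    exact ⟨hA' g hg _ hx.1, hB' g hg _ hx.2⟩
  · rw [isCompl_iff, Submodule.disjoint_def, Submodule.codisjoint_iff_exists_add_eq]
    constructor
    · intro x hx hx'
      rw [Submodule.mem_prod] at hx'
      have h2 : x.2 = 0 := (Submodule.disjoint_def.1 hB.disjoint) _ ⟨x, hx, rfl⟩ hx'.2
      have h3 : x = (x.1, 0) := Prod.ext rfl h2
      have h1 : x.1 = 0 := by
        refine (Submodule.disjoint_def.1 hA.disjoint) _ ?_ hx'.1
        change ((x.1, 0) : V × W) ∈ X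
        rw [← h3]
        exact hx
      exact Prod.ext h1 h2
    · intro z
      have hz2 : z.2 ∈ X.map (LinearMap.snd k V W) ⊔ B' := by rw [hB.sup_eq_top]; trivial
      obtain ⟨_, ⟨w, hw, rfl⟩, b', hb', h1⟩ := Submodule.mem_sup.1 hz2
      have hz1 : z.1 - w.1 ∈ X.comap (LinearMap.inl k V W) ⊔ A' := by
        rw [hA.sup_eq_top]; trivial
      obtain ⟨a, ha, a', ha', h2⟩ := Submodule.mem_sup.1 hz1
      refine ⟨w + (a, 0), (a', b'), X.add_mem hw ha, ⟨ha', hb'⟩, ?_⟩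
      refine Prod.ext ?_ ?_
      · change w.1 + a + a' = z.1
        rw [add_assoc, h2]
        abel
      · change w.2 + 0 + b' = z.2
        rw [add_zero]
        exact h1

end prod

section main

variable {K : Type} [Field K] [NumberField K] {ℓ : ℕ} [hℓ : Fact ℓ.Prime] {n : Type}
    [Fintype n] [DecidableEq n] {q : Matrix n n ℚ_[ℓ]} {S : Finset ℕ} {χ : GK K →* ℚ_[ℓ]}
    {Pol : HeightOneSpectrum (𝓞 K) → ℤ[X]} {ρ : GK K →* Matrix n n ℚ_[ℓ]}

/-- `Δ` acts on `F / F'` as on a Tate twist of a representation of weight one: for example a subquotient of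
the first cohomology of an abelian variety -/
def WeightOne {W : Type} [AddCommGroup W] [Module ℚ_[ℓ] W] (σ : Representation ℚ_[ℓ] (GK K) W)
    (Δ : Subgroup (GK K)) (F F' : Submodule ℚ_[ℓ] W) : Prop :=
  ∃ (S' : Finset ℕ) (j : ℤ), ∀ (p : ℕ) [Fact p.Prime], p ∉ S' → ∀ v : HeightOneSpectrum (𝓞 K),
    Ideal.absNorm v.asIdeal = p → ∀ g ∈ Δ, IsFrobenius v g → ∃ P : ℤ[X], P.Monic ∧
      (∀ z : ℂ, aeval z P = 0 → ‖z‖ ^ 2 = p) ∧
      ∀ x ∈ F, aeval ((p : ℚ_[ℓ]) ^ j • σ g⁻¹) P x ∈ F'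

variable {W : Type} [AddCommGroup W] [Module ℚ_[ℓ] W] [FiniteDimensional ℚ_[ℓ] W]

/-- the operator of rank two of an ordinary Frobenius element -/
theorem exists_torus (h : IsK3Type q S χ Pol ρ) (hss : Semisimple ρ) (hT : tate χ ρ ≠ ⊤)
    (S' : Finset ℕ) (Δ : Subgroup (GK K)) (hΔ : IsOpen (Δ : Set (GK K))) :
    ∃ (p : ℕ) (_ : Fact p.Prime), p ∉ S' ∧ ∃ v : HeightOneSpectrum (𝓞 K),
      Ideal.absNorm v.asIdeal = p ∧ ∃ g ∈ Δ, IsFrobenius v g ∧
      ∃ (θ : Additive (PadicAlgCl ℓ)ˣ →+ PadicAlgCl ℓ)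
        (v v' : PadicAlgCl ℓ ⊗[ℚ_[ℓ]] (n → ℚ_[ℓ])),
        bcB (PadicAlgCl ℓ) (form q) v v = 0 ∧ bcB (PadicAlgCl ℓ) (form q) v' v' = 0 ∧
        bcB (PadicAlgCl ℓ) (form q) v v' = 1 ∧
        (∀ Y : End (PadicAlgCl ℓ) (PadicAlgCl ℓ ⊗[ℚ_[ℓ]] (n → ℚ_[ℓ])),
          IsOp θ ((rep χ ρ g⁻¹).baseChange (PadicAlgCl ℓ)) Y → Y = wdg (bcB (PadicAlgCl ℓ) (form q)) v' v) ∧
        ∀ (P : ℤ[X]) (j : ℤ), P.Monic → (∀ z : ℂ, aeval z P = 0 → ‖z‖ ^ 2 = p) →
          ∀ α α' : PadicAlgCl ℓ, aeval ((p : PadicAlgCl ℓ) ^ j * α) P = 0 →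
            aeval ((p : PadicAlgCl ℓ) ^ j * α') P = 0 →
            ext0 θ α ≠ ext0 θ α' + 2 ∧ ext0 θ α ≠ ext0 θ α' + -2 := by
  obtain ⟨p, hp, hpS, hpS', v, hv, g, hg, hgΔ, hnear, hord, γ, hroot, hγ⟩ :=
    exists_place h hss hT S' Δ hΔ
  refine ⟨p, hp, hpS', v, hv, g, by simpa using Δ.inv_mem hgΔ, hg, ?_⟩
  obtain ⟨A, φ, ε, hA, hAr, hφ1, hφ0, hε, hw⟩ := fro2 h hpS hv hg hord hnear γ hroot hγ
  have hsep : ∀ β, (R χ ρ g⁻¹).charpoly.IsRoot β → β ≠ 1 → Separated (R χ ρ g⁻¹) β :=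
    fun β hβ hβ1 => fro h hpS hv hg hord hnear β hβ hβ1
  obtain ⟨θ, hθ⟩ := exists_theta hA
  have hs := form_symm h.symm
  have hb := form_nondeg h.symm h.nondeg
  set T : End (PadicAlgCl ℓ) (PadicAlgCl ℓ ⊗[ℚ_[ℓ]] (n → ℚ_[ℓ])) :=
    (rep χ ρ g⁻¹).baseChange (PadicAlgCl ℓ) with hTdef
  have hch : T.charpoly = (R χ ρ g⁻¹).charpoly := charpoly_rep χ ρ g⁻¹
  have hbot : ∀ δ, ¬ (R χ ρ g⁻¹).charpoly.IsRoot δ → ∀ y ∈ T.maxGenEigenspace δ, y = 0 := by
    intro δ hδ y hy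
    have h1 := LinearMap.finrank_maxGenEigenspace_eq T δ
    rw [hch, rootMultiplicity_eq_zero hδ] at h1
    rw [Submodule.finrank_eq_zero.1 h1] at hy
    exact (Submodule.mem_bot _).1 hy
  have hline : ∀ δ, (R χ ρ g⁻¹).charpoly.rootMultiplicity δ = 1 →
      ∃ v ∈ T.maxGenEigenspace δ, v ≠ 0 ∧
        ∀ y ∈ T.maxGenEigenspace δ, ∃ c : PadicAlgCl ℓ, y = c • v := by
    intro δ hδ
    have h1 := LinearMap.finrank_maxGenEigenspace_eq T δ
    rw [hch, hδ] at h1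
    obtain ⟨v, hv, hv'⟩ := finrank_eq_one_iff'.1 h1
    refine ⟨v.1, v.2, fun h0 => hv (Subtype.ext h0), fun y hy => ?_⟩
    obtain ⟨c, hc⟩ := hv' ⟨y, hy⟩
    exact ⟨c, (congrArg Subtype.val hc).symm⟩
  have hS := hsep γ hroot hγ
  have hγi : γ⁻¹ ≠ 1 := by
    intro h'
    apply hγ
    rw [← inv_inv γ, h', inv_one]
  have hS' := hsep γ⁻¹ hS.inv hγi
  obtain ⟨w, hvm, hv0, hv1⟩ := hline γ hS.simple
  obtain ⟨w', hvm', -, hv1'⟩ := hline γ⁻¹ hS'.simple
  have t1 : ext0 θ γ = 1 := by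
    have := hθ γ (hAr γ hroot) 1 (by rw [hφ1, Rat.cast_one])
    rwa [Rat.cast_one] at this
  have t2 : ext0 θ γ⁻¹ = -1 := by
    have := hθ γ⁻¹ (hAr _ hS.inv) (-1) (by
      rw [hA.map_inv γ (hAr γ hroot), hφ1]
      norm_num)
    rw [this]
    norm_num
  -- the operator
  obtain ⟨L, hLT, hLie, -, -⟩ := Pool.Agent.Y41.RM.lieL' ℚ_[ℓ] (n → ℚ_[ℓ]) (GK K) (rep χ ρ)
  have hskew : ∀ X ∈ L, Skew (form q) X := fun X hX => skew_of_tate h ((hLT X).1 hX).2
  obtain ⟨Y, hY⟩ := exists_op T (fun z => ext0 θ z)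
  have hYL : Y ∈ bcS (PadicAlgCl ℓ) L :=
    Pool.Agent.R913.Adj.op_mem (ρ := rep χ ρ) (PadicAlgCl ℓ) hLT g⁻¹ θ Y hY
  have hYs : Skew (bcB (PadicAlgCl ℓ) (form q)) Y := bcS_skew hskew Y hYL
  obtain ⟨a, a1, a2, a3, a4⟩ := op_wdg (B := bcB (PadicAlgCl ℓ) (form q)) (T := T) (Y := Y)
    (β := γ) (β' := γ⁻¹) (v := w) (v' := w') (bcB_symm hs) (bcB_nondeg hb)
    (Module.End.iSup_maxGenEigenspace_eq_top T) hYs hv0 hv1 hv1'
    (by rw [hY γ w hvm, t1, one_smul]) (by rw [hY γ⁻¹ w' hvm', t2, neg_one_smul]) (by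
      intro δ h1 h2 y hy
      by_cases hδ : (R χ ρ g⁻¹).charpoly.IsRoot δ
      · have := hθ δ (hAr δ hδ) 0 (by rw [hφ0 δ hδ h1 h2, Rat.cast_zero])
        rw [hY δ y hy, this, Rat.cast_zero, zero_smul]
      · rw [hbot δ hδ y hy, map_zero])
  refine ⟨θ, w, a • w', a1, a2, a3, fun Y' hY' => ?_, ?_⟩
  · rw [← a4]
    have htop : (⊤ : Submodule (PadicAlgCl ℓ) (PadicAlgCl ℓ ⊗[ℚ_[ℓ]] (n → ℚ_[ℓ]))) ≤
        LinearMap.eqLocus Y' Y := by
      rw [← Module.End.iSup_maxGenEigenspace_eq_top T]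
      refine iSup_le fun β => fun x hx => ?_
      rw [LinearMap.mem_eqLocus, hY' β x hx, hY β x hx]
    exact LinearMap.ext fun x => htop trivial
  · intro P j hP hW α α' hα hα'
    obtain ⟨hA1, c, hc, hc1, hc2⟩ := hw P j hP hW α hα
    obtain ⟨hA2, c', hc', hc1', hc2'⟩ := hw P j hP hW α' hα'
    rw [hθ α hA1 c hc, hθ α' hA2 c' hc']
    have key : ∀ s : ℚ, (s = 2 ∨ s = -2) → c ≠ c' + s := by
      rintro s hs rfl
      push_cast at hc1 hc2
      rcases hε with rfl | rfl <;> rcases hs with rfl | rfl <;> push_cast at hc1 hc2 <;> linarith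
    constructor
    · intro h'
      refine key 2 (Or.inl rfl) ?_
      have h2 : ((c : ℚ) : PadicAlgCl ℓ) = ((c' + 2 : ℚ) : PadicAlgCl ℓ) := by
        push_cast
        exact h'
      exact_mod_cast h2
    · intro h'
      refine key (-2) (Or.inr rfl) ?_
      have h2 : ((c : ℚ) : PadicAlgCl ℓ) = ((c' + -2 : ℚ) : PadicAlgCl ℓ) := by
        push_cast
        exact h'
      exact_mod_cast h2

end main

end Pool.Agent.H851.KS
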