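import Mathlib
import Pool.Agent.H851.KS.Main

/-!
# Pieces of weight one: the main theorem
-/

set_option autoImplicit false
set_option linter.unusedSectionVars false
set_option linter.unusedVariables false

namespace Pool.Agent.H851.KS

open Module TensorProduct Pool.Agent.Y114.RM Pool.Agent.TH118.SG Polynomial Matrix Topology
open NumberField IsDedekindDomain
open Pool.Agent.H851.K3 Pool.Agent.H851.KT Pool.Agent.H851.TT Pool.Agent.H851.ZD
open Pool.Agent.H851.IN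
open Pool.Agent.NH56.HY (GK IsFrobenius tw tw_apply R chi_ne Near NonUnip)
open Pool.Agent.H204R3.GP (FiniteIndexSemisimple)

theorem aeval_bc {k C W : Type} [Field k] [Field C] [Algebra k C] [AddCommGroup W] [Module k W]
    (τ : End k W) (c : k) {P : ℤ[X]} (h : aeval (c • τ) P = 0) :
    aeval ((algebraMap k C c) • (τ.baseChange C : End C (C ⊗[k] W))) P = 0 := by
  have h1 : (algebraMap k C c) • (τ.baseChange C : End C (C ⊗[k] W)) =
      Module.End.baseChangeHom k C W (c • τ) := by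
    rw [map_smul, algebraMap_smul]
    rfl
  rw [h1, aeval_def]
  rw [aeval_def] at h
  have h2 := Polynomial.hom_eval₂ P (algebraMap ℤ (End k W))
    (Module.End.baseChangeHom k C W : End k W →+* End C (C ⊗[k] W)) (c • τ)
  rw [h, map_zero] at h2
  rw [← RingHom.ext_int ((Module.End.baseChangeHom k C W : End k W →+* End C (C ⊗[k] W)).comp
    (algebraMap ℤ (End k W))) (algebraMap ℤ (End C (C ⊗[k] W)))]
  exact h2.symm

theorem aeval_comm {k W W₁ : Type} [Field k] [AddCommGroup W] [Module k W] [AddCommGroup W₁]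
    [Module k W₁] {f : End k W₁} {f' : End k W} {ι : W₁ →ₗ[k] W} (h : ∀ x, f' (ι x) = ι (f x))
    (P : ℤ[X]) (x : W₁) : aeval f' P (ι x) = ι (aeval f P x) := by
  induction P using Polynomial.induction_on' with
  | add P Q h1 h2 => rw [map_add, map_add, LinearMap.add_apply, LinearMap.add_apply, h1, h2, map_add]
  | monomial m a =>
    have h2 : ∀ m : ℕ, (f' ^ m) (ι x) = ι ((f ^ m) x) := by
      intro m
      induction m with
      | zero => rfl
      | succ m ih => rw [pow_succ', Module.End.mul_apply, ih, h, pow_succ', Module.End.mul_apply]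
    rw [aeval_monomial, aeval_monomial, Module.End.mul_apply, Module.End.mul_apply, h2,
      eq_intCast, eq_intCast, Module.End.intCast_apply, Module.End.intCast_apply, map_zsmul]

section

variable {k : Type} [Field k] [CharZero k] {C : Type} [Field C] [CharZero C] [IsAlgClosed C]
  [Algebra k C] {V W : Type} [AddCommGroup V] [Module k V] [AddCommGroup W] [Module k W]
  [FiniteDimensional k V] [FiniteDimensional k W] {L : Submodule k (End k (V × W))} {Γ : Type}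
  [Group Γ] {r : Representation k Γ V} {σ : Representation k Γ W}

theorem bC_mem {z : End C (C ⊗[k] (V × W))} (hz : z ∈ bcS C L) : bC z ∈ bcS C (L.map blk) := by
  rw [mem_bc]
  intro π
  rw [pM_bC]
  exact ⟨_, mem_bc.1 hz π, rfl⟩

/-- the block of an operator of a Frobenius element -/
theorem bC_op {θ : Additive Cˣ →+ C} {g : Γ} {N : End C (C ⊗[k] (V × W))}
    (hN : IsOp θ (((r.prod σ) g).baseChange C) N) : IsOp θ ((r g).baseChange C) (bC N) := by
  intro β x hx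
  have h1 : inC k C V W x ∈ Module.End.maxGenEigenspace (((r.prod σ) g).baseChange C) β := by
    refine gen_map (T := (r g).baseChange C) (T' := ((r.prod σ) g).baseChange C)
      (i := inC k C V W) (fun x => ?_) hx
    have h2 : ((r.prod σ) g).baseChange C ∘ₗ inC k C V W = inC k C V W ∘ₗ (r g).baseChange C := by
      rw [inC, ← LinearMap.baseChange_comp, ← LinearMap.baseChange_comp]
      congr 1
      refine LinearMap.ext fun x => ?_
      rw [LinearMap.comp_apply, LinearMap.comp_apply, LinearMap.inl_apply, LinearMap.inl_apply,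
        prod_apply, map_zero]
    exact LinearMap.congr_fun h2 x
  rw [bC_apply, hN β _ h1, map_smul, fs_in]

theorem rs_op {W₁ : Type} [AddCommGroup W₁] [Module k W₁] {ι : W₁ →ₗ[k] W} {p : W →ₗ[k] W₁}
    (hpi : ∀ x, p (ι x) = x) {θ : Additive Cˣ →+ C} {g : Γ} {N : End C (C ⊗[k] (V × W))}
    (hN : IsOp θ (((r.prod σ) g).baseChange C) N) {τ : End k W₁}
    (hτ : ∀ x, σ g (ι x) = ι (τ x)) (β : C) (x : C ⊗[k] W₁)
    (hx : x ∈ Module.End.maxGenEigenspace (τ.baseChange C) β) :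
    rs ι p N x = ext0 θ β • x := by
  have h1 : (irC k C V W ∘ₗ ι.baseChange C) x ∈
      Module.End.maxGenEigenspace (((r.prod σ) g).baseChange C) β := by
    refine gen_map (T := τ.baseChange C) (T' := ((r.prod σ) g).baseChange C)
      (i := irC k C V W ∘ₗ ι.baseChange C) (fun x => ?_) hx
    have h2 : ((r.prod σ) g).baseChange C ∘ₗ (irC k C V W ∘ₗ ι.baseChange C) =
        (irC k C V W ∘ₗ ι.baseChange C) ∘ₗ τ.baseChange C := by
      rw [irC, ← LinearMap.baseChange_comp, ← LinearMap.baseChange_comp,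
        ← LinearMap.baseChange_comp]
      congr 1
      refine LinearMap.ext fun x => ?_
      rw [LinearMap.comp_apply, LinearMap.comp_apply, LinearMap.comp_apply, LinearMap.comp_apply,
        LinearMap.inr_apply, LinearMap.inr_apply, prod_apply, map_zero, hτ]
    exact LinearMap.congr_fun h2 x
  have h2 : rs ι p N x = p.baseChange C (snC k C V W (N ((irC k C V W ∘ₗ ι.baseChange C) x))) := rfl
  rw [h2, hN β _ h1, map_smul, map_smul, LinearMap.comp_apply, sn_ir]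
  congr 1
  have h3 : p.baseChange C ∘ₗ ι.baseChange C = LinearMap.id := by
    rw [← LinearMap.baseChange_comp]
    have h4 : p ∘ₗ ι = LinearMap.id := LinearMap.ext hpi
    rw [h4, LinearMap.baseChange_id]
  exact LinearMap.congr_fun h3 x

end

section

variable {K : Type} [Field K] [NumberField K] {ℓ : ℕ} [hℓ : Fact ℓ.Prime] {n : Type}
    [Fintype n] [DecidableEq n] {q : Matrix n n ℚ_[ℓ]} {S : Finset ℕ} {χ : GK K →* ℚ_[ℓ]}
    {Pol : HeightOneSpectrum (𝓞 K) → ℤ[X]} {ρ : GK K →* Matrix n n ℚ_[ℓ]}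
    {W : Type} [AddCommGroup W] [Module ℚ_[ℓ] W] [FiniteDimensional ℚ_[ℓ] W]

/-- **Pieces of weight one.** -/
theorem weight_one (h : IsK3Type q S χ Pol ρ) (hss : Semisimple ρ) (hc : ScalarEnds q χ ρ)
    (hd3 : 3 ≤ finrank ℚ_[ℓ] (orth q (tate χ ρ))) (hd4 : finrank ℚ_[ℓ] (orth q (tate χ ρ)) ≠ 4)
    {σ : Representation ℚ_[ℓ] (GK K) W} (hσ : FiniteIndexSemisimple σ) {Δ : Subgroup (GK K)}
    (hΔ : IsOpen (Δ : Set (GK K))) {F F' : Submodule ℚ_[ℓ] W} (hle : F' ≤ F)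
    (hF : ∀ γ ∈ Δ, ∀ x ∈ F, σ γ x ∈ F) (hF' : ∀ γ ∈ Δ, ∀ x ∈ F', σ γ x ∈ F')
    (hw : WeightOne σ Δ F F')
    (hdim : finrank ℚ_[ℓ] F - finrank ℚ_[ℓ] F' <
      2 ^ ((finrank ℚ_[ℓ] (orth q (tate χ ρ)) - 1) / 2)) :
    ∀ X ∈ lieE χ ρ, ∃ Z ∈ LT ((rep χ ρ).prod σ), blk Z = X ∧ ∀ x ∈ F, blk2 Z x ∈ F' := by
  obtain ⟨a, U, W', Fr⟩ := exists_frame h hss hc
  have hT : tate χ ρ ≠ ⊤ := by
    intro hT
    have h3 := Submodule.finrank_add_eq_of_isCompl (tate_compl h hss)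
    have h4 : finrank ℚ_[ℓ] (tate χ ρ) = finrank ℚ_[ℓ] (n → ℚ_[ℓ]) := by rw [hT, finrank_top]
    omega
  have hcomp : CompactSpace (GK K) := inferInstance
  have hfin : Finite (GK K ⧸ Δ) := Subgroup.quotient_finite_of_isOpen _ hΔ
  have hΔf : Δ.FiniteIndex := Subgroup.finiteIndex_of_finite_quotient
  obtain ⟨L, hLT, hLie, hAd, -⟩ := Pool.Agent.Y41.RM.lieL' ℚ_[ℓ] ((n → ℚ_[ℓ]) × W) (GK K)
    ((rep χ ρ).prod σ)
  have hfss : FiniteIndexSemisimple ((rep χ ρ).prod σ) :=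
    prod_semisimple (finiteIndexSemisimple hss) hσ
  obtain ⟨𝔰, hcpl⟩ := exists_cpl hfss hLT hLie hAd
  have hd : ∀ X ∈ L, ∀ x, X x = (blk X x.1, blk2 X x.2) := fun Z hZ x => lt_diag ((hLT Z).1 hZ) x
  have hmap : L.map blk = lieE χ ρ := by
    refine le_antisymm ?_ ?_
    · rintro _ ⟨Z, hZ, rfl⟩
      exact lieE_of_lt (blk_mem ((hLT Z).1 hZ))
    · intro Y hY
      obtain ⟨Z, hZ, h1⟩ := lift_all h hss W σ Y hY
      exact ⟨Z, (hLT Z).2 hZ, h1⟩
  have hlin : lin (tateLie χ ρ) = L.map blk := hmap.symm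
  have hsimple : ∀ I ≤ L.map blk, (∀ A ∈ L.map blk, ∀ Z ∈ I, A * Z - Z * A ∈ I) →
      I = ⊥ ∨ I = L.map blk := by
    rw [hmap]
    exact lieE_simple Fr hd4
  obtain ⟨S', j, hw⟩ := hw
  obtain ⟨p, hp, hpS', v₀, hv₀, g, hgΔ, hg, θ, v, v', a1, a2, a3, hop, hwt⟩ :=
    exists_torus h hss hT S' Δ hΔ
  obtain ⟨P, hP, hPW, hPF⟩ := hw p hpS' v₀ hv₀ g hgΔ hg
  have hgi : g⁻¹ ∈ Δ := Δ.inv_mem hgΔ
  obtain ⟨N, hN⟩ := exists_op ((((rep χ ρ).prod σ) g⁻¹).baseChange (PadicAlgCl ℓ))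
    (fun z => ext0 θ z)
  have hNL : N ∈ bcS (PadicAlgCl ℓ) L :=
    Pool.Agent.R913.Adj.op_mem (ρ := (rep χ ρ).prod σ) (PadicAlgCl ℓ) hLT g⁻¹ θ N hN
  have hNb : bC N = wdg (bcB (PadicAlgCl ℓ) (form q)) v' v := hop _ (bC_op hN)
  -- the hyperbolic plane
  have hs := bcB_symm (C := PadicAlgCl ℓ) (form_symm h.symm)
  have hNS : bC N ∈ bcS (PadicAlgCl ℓ) (lin (tateLie χ ρ)) := by
    rw [hlin]
    exact bC_mem hNL
  have hv : v ∈ TC (PadicAlgCl ℓ) (orth q (tate χ ρ)) := by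
    have h1 := TC_range Fr hNS v
    rwa [hNb, wdg_apply, hs v' v, a3, a1, one_smul, zero_smul, sub_zero] at h1
  have hv' : v' ∈ TC (PadicAlgCl ℓ) (orth q (tate χ ρ)) := by
    have h1 := TC_range Fr hNS v'
    rw [hNb, wdg_apply, a3, a2, one_smul, zero_smul, zero_sub] at h1
    have h2 := Submodule.neg_mem _ h1
    rwa [neg_neg] at h2
  obtain ⟨u, u1, u2, u3, u4, u5⟩ := exists_ortho hs (TC (PadicAlgCl ℓ) (orth q (tate χ ρ)))
    (TC_nondeg (form_nondeg h.symm h.nondeg) Fr) hv hv' a1 a2 a3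
  have hfr : finrank (PadicAlgCl ℓ) (TC (PadicAlgCl ℓ) (orth q (tate χ ρ))) =
      finrank ℚ_[ℓ] (orth q (tate χ ρ)) := finrank_TC
  -- the complement
  obtain ⟨Q, hQ1, hQ2, hQ3⟩ := Pool.Agent.R913.Adj.hasProj hσ Δ hΔf F'
    (fun s hs u hu => hF' s hs u hu)
  let W₁ : Submodule ℚ_[ℓ] W := F ⊓ LinearMap.ker Q
  have hW₁ : ∀ x, x ∈ W₁ ↔ x ∈ F ∧ Q x = 0 := fun x => Iff.rfl
  have hW₁st : ∀ γ ∈ Δ, ∀ x ∈ W₁, σ γ x ∈ W₁ := by
    intro γ hγ x hx
    refine (hW₁ _).2 ⟨hF γ hγ x hx.1, ?_⟩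
    rw [hQ3 γ hγ, (show Q x = 0 from hx.2), map_zero]
  have hW₁F : ∀ x ∈ W₁, x ∈ F' → x = 0 := by
    intro x hx hx'
    rw [← hQ2 x hx']
    exact hx.2
  have hW₁dim : finrank ℚ_[ℓ] W₁ + finrank ℚ_[ℓ] F' ≤ finrank ℚ_[ℓ] F := by
    have h1 := Submodule.finrank_sup_add_finrank_inf_eq W₁ F'
    have h2 : W₁ ⊓ F' = ⊥ := by
      rw [eq_bot_iff]
      intro x hx
      exact (Submodule.mem_bot _).2 (hW₁F x hx.1 hx.2)
    rw [h2, finrank_bot, add_zero] at h1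
    rw [← h1]
    exact Submodule.finrank_mono (sup_le inf_le_left hle)
  obtain ⟨pr, hpr⟩ := LinearMap.exists_leftInverse_of_injective W₁.subtype W₁.ker_subtype
  have hpi : ∀ x, pr (W₁.subtype x) = x := fun x => LinearMap.congr_fun hpr x
  have hpr' : ∀ y ∈ W₁, W₁.subtype (pr y) = y := by
    intro y hy
    have h1 : W₁.subtype ⟨y, hy⟩ = y := rfl
    conv_lhs => rw [← h1]
    rw [hpi]
    rfl
  have hpL : ∀ X ∈ L, ∀ x, W₁.subtype (pr (blk2 X (W₁.subtype x))) = blk2 X (W₁.subtype x) := by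
    intro X hX x
    exact hpr' _ ((blk2_mem ((hLT X).1 hX)).1 W₁ ⟨Δ, hΔf, hW₁st⟩ _ x.2)
  let τ : End ℚ_[ℓ] W₁ := pr ∘ₗ σ g⁻¹ ∘ₗ W₁.subtype
  have hτ : ∀ x, σ g⁻¹ (W₁.subtype x) = W₁.subtype (τ x) := by
    intro x
    exact (hpr' _ (hW₁st _ hgi _ x.2)).symm
  have hPτ : aeval ((p : ℚ_[ℓ]) ^ j • τ) P = 0 := by
    refine LinearMap.ext fun x => ?_
    have h1 := aeval_comm (f := (p : ℚ_[ℓ]) ^ j • τ) (f' := (p : ℚ_[ℓ]) ^ j • σ g⁻¹)
      (ι := W₁.subtype) (fun x => by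
        rw [LinearMap.smul_apply, hτ, LinearMap.smul_apply, map_smul]) P x
    have h2 := hPF (W₁.subtype x) x.2.1
    rw [h1] at h2
    rw [LinearMap.zero_apply]
    exact Subtype.ext (hW₁F _ (Subtype.coe_prop _) h2)
  have hPC : ∀ α, Module.End.maxGenEigenspace (τ.baseChange (PadicAlgCl ℓ)) α ≠ ⊥ →
      aeval ((p : PadicAlgCl ℓ) ^ j * α) P = 0 := by
    intro α hα
    have h1 := aeval_bc (C := PadicAlgCl ℓ) τ ((p : ℚ_[ℓ]) ^ j) hPτ
    rw [map_zpow₀, map_natCast] at h1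
    exact root_of_gen h1 hα
  have key := piece (T := τ.baseChange (PadicAlgCl ℓ)) (t := fun z => ext0 θ z) hcpl hd hsimple
    hLie hs a1 a2 a3 (by rw [hfr]; omega) u u2 u3 u4 u5
    (fun i => by rw [← hlin]; exact TC_wdg Fr hv (u1 i))
    (fun i => by rw [← hlin]; exact TC_wdg Fr hv' (u1 i)) hNL hNb hpi hpL
    (fun β x hx => rs_op hpi hN hτ β x hx)
    (fun α β hα hβ => hwt P j hP hPW α β (hPC α hα) (hPC β hβ))
    (by
      rw [hfr]
      have h1 : finrank ℚ_[ℓ] (orth q (tate χ ρ)) - 2 + 1 =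
        finrank ℚ_[ℓ] (orth q (tate χ ρ)) - 1 := by omega
      rw [h1]
      omega)
  intro X hX
  rw [← hmap] at hX
  obtain ⟨Z, hZ, h1, h2⟩ := key X hX
  refine ⟨Z, (hLT Z).1 hZ, h1, fun x hx => ?_⟩
  have h3 : x = Q x + (x - Q x) := by abel
  have h4 : x - Q x ∈ W₁ := (hW₁ _).2 ⟨F.sub_mem hx (hle (hQ1 x)), by
    rw [map_sub, hQ2 _ (hQ1 x), sub_self]⟩
  have h5 : blk2 Z (x - Q x) = 0 := h2 ⟨_, h4⟩
  rw [h3, map_add, h5, add_zero]
  exact (blk2_mem ((hLT Z).1 hZ)).1 F' ⟨Δ, hΔf, hF'⟩ _ (hQ1 x)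

end

end Pool.Agent.H851.KS
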