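import Mathlib
import Pool.Agent.H851.KS.Fin
import Pool.Agent.H851.IN.Pub

/-!
# The definitions used in the statements
-/

set_option autoImplicit false
set_option linter.unusedSectionVars false

namespace Pool.Agent.H851.KS

open Matrix Finset Function Module Pool.Agent.Y114.RM
open NumberField IsDedekindDomain Polynomial
open Pool.Agent.H851.K3 Pool.Agent.H851.KT Pool.Agent.H851.TT Pool.Agent.H851.ZD
open Pool.Agent.H851.IN
open Pool.Agent.NH56.HY (GK IsFrobenius tw tw_apply chi_ne)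
open Pool.Agent.H204R3.GP (FiniteIndexSemisimple)

variable {K : Type} [Field K] [NumberField K] {ℓ : ℕ} [hℓ : Fact ℓ.Prime] {n : Type}
    [Fintype n] [DecidableEq n] {q : Matrix n n ℚ_[ℓ]} {S : Finset ℕ} {χ : GK K →* ℚ_[ℓ]}
    {Pol : HeightOneSpectrum (𝓞 K) → ℤ[X]} {ρ : GK K →* Matrix n n ℚ_[ℓ]} {m : Type} [Fintype m]
    [DecidableEq m]

/-- `Δ` acts on `F / F'` as on a Tate twist of a representation of weight one: at almost all places of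
degree one, with the residue characteristic `p`, whose Frobenius element is in `Δ`, the product of `p ^ j`
and the geometric Frobenius element is a zero on `F / F'` of a monic polynomial with integral coefficients all
whose complex roots have the absolute value `√p`. For example `F / F'` may be a subquotient of the first
cohomology of an abelian variety over the fixed field of `Δ`, or of a Tate twist of it. -/
def IsWeightOne (σ : GK K →* Matrix m m ℚ_[ℓ]) (Δ : Subgroup (GK K))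
    (F F' : Submodule ℚ_[ℓ] (m → ℚ_[ℓ])) : Prop :=
  ∃ (S' : Finset ℕ) (j : ℤ), ∀ (p : ℕ) [Fact p.Prime], p ∉ S' → ∀ v : HeightOneSpectrum (𝓞 K),
    Ideal.absNorm v.asIdeal = p → ∀ g ∈ Δ, IsFrobenius v g → ∃ P : ℤ[X], P.Monic ∧
      (∀ z : ℂ, aeval z P = 0 → ‖z‖ ^ 2 = p) ∧
      ∀ x ∈ F, (aeval ((p : ℚ_[ℓ]) ^ j • σ g⁻¹) P : Matrix m m ℚ_[ℓ]) *ᵥ x ∈ F'

/-- `W` has a chain of subspaces, stable under an open subgroup `Δ`, such that every piece, of dimension `e`,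
is of weight one with `e < 2 ^ ((d - 1) / 2)` (integral part), or it is small, `2 e ^ 2 ≤ d (d - 1)`, or `Δ`
acts on it through commuting operators. -/
def BoundedPieces (d : ℕ) (σ : GK K →* Matrix m m ℚ_[ℓ]) : Prop :=
  ∃ (Δ : Subgroup (GK K)) (N : ℕ) (F : ℕ → Submodule ℚ_[ℓ] (m → ℚ_[ℓ])),
    IsOpen (Δ : Set (GK K)) ∧ F 0 = ⊥ ∧ F N = ⊤ ∧ (∀ i, F i ≤ F (i + 1)) ∧
    (∀ i, ∀ g ∈ Δ, ∀ x ∈ F i, σ g *ᵥ x ∈ F i) ∧
    ∀ i < N, (finrank ℚ_[ℓ] (F (i + 1)) - finrank ℚ_[ℓ] (F i) < 2 ^ ((d - 1) / 2) ∧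
        IsWeightOne σ Δ (F (i + 1)) (F i)) ∨
      2 * (finrank ℚ_[ℓ] (F (i + 1)) - finrank ℚ_[ℓ] (F i)) ^ 2 ≤ d * (d - 1) ∨
      ∀ g ∈ Δ, ∀ h ∈ Δ, ∀ x ∈ F (i + 1), (σ g * σ h - σ h * σ g) *ᵥ x ∈ F i

theorem matRep_semisimple {σ : GK K →* Matrix m m ℚ_[ℓ]} (hσ : Semisimple σ) :
    FiniteIndexSemisimple (matRep σ) := by
  have h1 : Pool.Agent.Y114.GF.Semi (matRep σ) (⊤ : Subgroup (GK K)) := by
    intro W hW
    obtain ⟨W', h2, h3⟩ := hσ W (fun g x hx => hW g trivial x hx)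
    exact ⟨W', fun g _ x hx => h2 g x hx, h3⟩
  intro Δ hΔ W hW
  exact Pool.Agent.Y114.GF.semi_finiteIndex (matRep σ) h1 Δ W hW

theorem splits_of_bounded (h : IsK3Type q S χ Pol ρ) (hss : Semisimple ρ) (hc : ScalarEnds q χ ρ)
    (hd3 : 3 ≤ finrank ℚ_[ℓ] (orth q (tate χ ρ))) (hd4 : finrank ℚ_[ℓ] (orth q (tate χ ρ)) ≠ 4)
    {σ : GK K →* Matrix m m ℚ_[ℓ]} (hσs : Semisimple σ)
    (hσ : BoundedPieces (finrank ℚ_[ℓ] (orth q (tate χ ρ))) σ) : Splits χ ρ σ := by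
  obtain ⟨Δ, N, F, hΔ, h0, hN, hle, hst, hp⟩ := hσ
  have hcomp : CompactSpace (GK K) := inferInstance
  have hfin : Finite (GK K ⧸ Δ) := Subgroup.quotient_finite_of_isOpen _ hΔ
  have hΔf : Δ.FiniteIndex := Subgroup.finiteIndex_of_finite_quotient
  intro X hX
  refine split h hss hc hd3 hd4 (matRep σ) hΔf N F h0 hN hle hst (fun i hi => ?_) hX
  rcases hp i hi with ⟨h1, S', j, h2⟩ | h1 | h1
  · refine Or.inr (Or.inr (weight_one h hss hc hd3 hd4 (matRep_semisimple hσs) hΔ (hle i)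
      (hst (i + 1)) (hst i) ⟨S', j, fun p _ hp v hv g hg hgF => ?_⟩ h1))
    obtain ⟨P, hP, hPW, hPF⟩ := h2 p hp v hv g hg hgF
    refine ⟨P, hP, hPW, fun x hx => ?_⟩
    have h3 := hPF x hx
    have h4 : aeval ((p : ℚ_[ℓ]) ^ j • matRep σ g⁻¹) P =
        Matrix.toLinAlgEquiv' (aeval ((p : ℚ_[ℓ]) ^ j • σ g⁻¹) P : Matrix m m ℚ_[ℓ]) := by
      have h5 : (p : ℚ_[ℓ]) ^ j • matRep σ g⁻¹ =
          Matrix.toLinAlgEquiv' ((p : ℚ_[ℓ]) ^ j • σ g⁻¹) := by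
        rw [map_smul]
        rfl
      rw [h5, aeval_def, aeval_def]
      have h6 := Polynomial.hom_eval₂ P (algebraMap ℤ (Matrix m m ℚ_[ℓ]))
        ((Matrix.toLinAlgEquiv' : Matrix m m ℚ_[ℓ] ≃ₐ[ℚ_[ℓ]] _) :
          Matrix m m ℚ_[ℓ] →+* End ℚ_[ℓ] (m → ℚ_[ℓ])) ((p : ℚ_[ℓ]) ^ j • σ g⁻¹)
      rw [← RingHom.ext_int (((Matrix.toLinAlgEquiv' : Matrix m m ℚ_[ℓ] ≃ₐ[ℚ_[ℓ]] _) :
          Matrix m m ℚ_[ℓ] →+* End ℚ_[ℓ] (m → ℚ_[ℓ])).comp (algebraMap ℤ (Matrix m m ℚ_[ℓ])))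
          (algebraMap ℤ (End ℚ_[ℓ] (m → ℚ_[ℓ])))]
      exact h6.symm
    rw [h4]
    exact h3
  · exact Or.inl h1
  · refine Or.inr (Or.inl fun g hg g' hg' x hx => ?_)
    have h2 := h1 g hg g' hg' x hx
    rw [Matrix.sub_mulVec, ← Matrix.mulVec_mulVec, ← Matrix.mulVec_mulVec] at h2
    exact h2

end Pool.Agent.H851.KS
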