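import Pool.Agent.H851.K3.Fro

/-!
# Frobenius eigenvalues of weight one
-/

set_option autoImplicit false

namespace Pool.Agent.H851.KS

open Matrix Polynomial Filter Topology NumberField IsDedekindDomain
open Pool.Agent.NH56.HY Pool.Agent.H851.K3

/-- the logarithms of the absolute values of algebraic numbers are rational -/
theorem logb_rat (p : ℕ) [hp : Fact p.Prime] (x : PadicAlgCl p) (hx : x ≠ 0) :
    ∃ c : ℚ, Real.logb p ‖x‖ = c := by
  have hp1 : (1 : ℝ) < p := by exact_mod_cast hp.out.one_lt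
  have h1 : ‖x‖ = ‖(minpoly ℚ_[p] x).coeff 0‖ ^ (1 / (minpoly ℚ_[p] x).natDegree : ℝ) := by
    rw [← PadicAlgCl.spectralNorm_eq]
    exact spectralNorm.spectralNorm_eq_norm_coeff_zero_rpow ℚ_[p] (PadicAlgCl p) x
  have h0 : (minpoly ℚ_[p] x).coeff 0 ≠ 0 := by
    intro h
    rw [h, norm_zero] at h1
    have h2 : (minpoly ℚ_[p] x).natDegree ≠ 0 :=
      (minpoly.natDegree_pos (Algebra.IsIntegral.isIntegral x)).ne'
    rw [Real.zero_rpow (by positivity)] at h1
    exact hx (norm_eq_zero.1 h1)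
  rw [h1, Real.logb_rpow_eq_mul_logb_of_pos (norm_pos_iff.2 h0), Padic.norm_eq_zpow_neg_valuation h0,
    ← Real.rpow_intCast, Real.logb_rpow (by linarith) hp1.ne']
  refine ⟨1 / (minpoly ℚ_[p] x).natDegree * (-((minpoly ℚ_[p] x).coeff 0).valuation), ?_⟩
  push_cast
  ring

/-- the slopes of Frobenius eigenvalues of weight one lie between zero and one -/
theorem slope_one {p : ℕ} [hp : Fact p.Prime] {P : ℤ[X]} (hP : P.Monic)
    (hW : ∀ z : ℂ, aeval z P = 0 → ‖z‖ ^ 2 = p) (π : AlgebraicClosure ℚ →+* PadicAlgCl p)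
    {a : AlgebraicClosure ℚ} (ha : aeval a P = 0) :
    a ≠ 0 ∧ -1 ≤ Real.logb p ‖π a‖ ∧ Real.logb p ‖π a‖ ≤ 0 := by
  have hp1 : (1 : ℝ) < p := by exact_mod_cast hp.out.one_lt
  obtain ⟨s⟩ := Pool.Agent.NH66.HY.Nwt.exists_hom ℚ ℂ
  have hroot : ∀ {F : Type} [Field F] (τ : AlgebraicClosure ℚ →+* F) {b : AlgebraicClosure ℚ},
      aeval b P = 0 ↔ aeval (τ b) P = 0 := by
    intro F _ τ b
    have h1 : aeval (τ b) P = τ (aeval b P) := by
      rw [aeval_def, aeval_def, hom_eval₂]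
      congr 1
      exact RingHom.ext_int _ _
    rw [h1]
    exact (map_eq_zero τ).symm
  have hz := (hroot s).1 ha
  have hz2 := hW _ hz
  have hz0 : s a ≠ 0 := by
    intro h
    rw [h, norm_zero] at hz2
    have : (0 : ℝ) < p := by positivity
    rw [← hz2] at this
    norm_num at this
  have ha0 : a ≠ 0 := by
    rintro rfl
    exact hz0 (map_zero s)
  -- the other root
  have hconj : aeval (starRingEnd ℂ (s a)) P = 0 := by
    have h1 : aeval (starRingEnd ℂ (s a)) P = starRingEnd ℂ (aeval (s a) P) := by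
      rw [aeval_def, aeval_def, hom_eval₂]
      congr 1
      exact RingHom.ext_int _ _
    rw [h1, hz, map_zero]
  have h3 : s a * (starRingEnd ℂ) (s a) = (p : ℂ) := by
    rw [Complex.mul_conj, Complex.normSq_eq_norm_sq, hz2]
    push_cast
    rfl
  have h4 : s ((p : AlgebraicClosure ℚ) / a) = starRingEnd ℂ (s a) := by
    rw [map_div₀, map_natCast, ← h3]
    field_simp
  have hb : aeval ((p : AlgebraicClosure ℚ) / a) P = 0 := (hroot s).2 (by rw [h4]; exact hconj)
  have h5 := Ari.root_le p P hP (π a) ((hroot π).1 ha)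
  have h6 := Ari.root_le p P hP _ ((hroot π).1 hb)
  have h7 : π a ≠ 0 := (map_ne_zero π).2 ha0
  have h8 : (0 : ℝ) < ‖π a‖ := norm_pos_iff.2 h7
  refine ⟨ha0, ?_, Real.logb_nonpos hp1 h8.le h5⟩
  rw [map_div₀, norm_div, map_natCast, Pool.Agent.NH66.HY.Nwt.norm_nat, div_le_one h8] at h6
  rw [Real.le_logb_iff_rpow_le hp1 h8, Real.rpow_neg_one]
  exact h6

end Pool.Agent.H851.KS
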